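import Pool.Agent.helper506_es.Trans

/-!
# The graph for coNP-hardness

Let a formula in conjunctive normal form be given. The graph has a vertex `(0, l)` for every
literal `l` and a vertex `(k + 1, l)` for every clause `k` and every literal `l` not in clause `k`.
A maximal stable set is either a satisfying assignment, or it consists of two copies of an
assignment which falsifies some clause `k`, one on level `0` and one on level `k + 1`.
-/

set_option autoImplicit false

namespace Pool.Agent.helper506_es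

/-- the complement of a literal -/
def comp (l : ℕ) : ℕ := if l % 2 = 0 then l + 1 else l - 1

theorem comp_comp (l : ℕ) : comp (comp l) = l := by unfold comp; split_ifs <;> omega

theorem comp_ne (l : ℕ) : comp l ≠ l := by unfold comp; split_ifs <;> omega

theorem comp_div (l : ℕ) : comp l / 2 = l / 2 := by unfold comp; split_ifs <;> omega

theorem comp_lt {l n : ℕ} (h : l < 2 * n) : comp l < 2 * n := by unfold comp; split_ifs <;> omega

theorem eq_or_comp {l k : ℕ} (h : l / 2 = k / 2) : l = k ∨ l = comp k := by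
  unfold comp
  split_ifs <;> omega

theorem comp_eq_iff {l k : ℕ} : k = comp l ↔ l = comp k := by
  constructor <;> (rintro rfl; rw [comp_comp])

/-- a formula in conjunctive normal form: the number of variables, the number of clauses, and the
literals of the clauses; the literals of the variable `v` are `2 * v` and `2 * v + 1` -/
structure CF where
  /-- number of variables -/
  n : ℕ
  /-- number of clauses -/
  m : ℕ
  /-- the clauses -/
  C : ℕ → ℕ → Bool

namespace CF

variable (P : CF)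

/-- truth of a literal -/
def tr (A : ℕ → Bool) (l : ℕ) : Prop := A (l / 2) = decide (l % 2 = 1)

/-- satisfiability -/
def Sat : Prop := ∃ A : ℕ → Bool, ∀ k < P.m, ∃ l < 2 * P.n, P.C k l = true ∧ tr A l

/-- the vertices which are not isolated -/
def Val (a l : ℕ) : Prop := a = 0 ∨ P.C (a - 1) l = false

/-- adjacency -/
def R (a l b k : ℕ) : Prop := P.Val a l ∧ P.Val b k ∧
  ((a = b ∧ k = comp l) ∨ (a = 0 ∧ b ≠ 0 ∧ (l = comp k ∨ P.C (b - 1) l = true)) ∨
    (b = 0 ∧ a ≠ 0 ∧ (k = comp l ∨ P.C (a - 1) k = true)) ∨ (a ≠ 0 ∧ b ≠ 0 ∧ a ≠ b))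

/-- the vertices -/
abbrev Vx : Type := {p : ℕ × ℕ // p.1 ≤ P.m ∧ p.2 < 2 * P.n}

theorem R_symm {a l b k : ℕ} (h : P.R a l b k) : P.R b k a l := by
  obtain ⟨h1, h2, h3⟩ := h
  refine ⟨h2, h1, ?_⟩
  rcases h3 with ⟨h, h'⟩ | ⟨h, h', h''⟩ | ⟨h, h', h''⟩ | ⟨h, h', h''⟩
  · exact Or.inl ⟨h.symm, comp_eq_iff.1 h'⟩
  · exact Or.inr (Or.inr (Or.inl ⟨h, h', h''⟩))
  · exact Or.inr (Or.inl ⟨h, h', h''⟩)
  · exact Or.inr (Or.inr (Or.inr ⟨h', h, fun e => h'' e.symm⟩))

theorem R_irrefl (a l : ℕ) : ¬ P.R a l a l := by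
  rintro ⟨-, -, ⟨-, h⟩ | ⟨h, h', -⟩ | ⟨h, h', -⟩ | ⟨-, -, h⟩⟩
  · exact comp_ne l h.symm
  · exact h' h
  · exact h' h
  · exact h rfl

/-- the graph -/
def G : SimpleGraph P.Vx where
  Adj x y := P.R x.1.1 x.1.2 y.1.1 y.1.2
  symm := ⟨fun _ _ h => P.R_symm h⟩
  loopless := ⟨fun _ h => P.R_irrefl _ _ h⟩

variable {P}

/-- The structure of the maximal stable sets. -/
theorem structure_of_maximal (hn : 1 ≤ P.n)
    (taut : ∀ k < P.m, ∀ l < 2 * P.n, P.C k l = true → P.C k (comp l) = false)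
    (unsat : ¬ P.Sat) (S : ℕ → ℕ → Prop) (hb : ∀ a l, S a l → a ≤ P.m ∧ l < 2 * P.n)
    (hst : ∀ a l b k, S a l → S b k → ¬ P.R a l b k)
    (hmax : ∀ a l, a ≤ P.m → l < 2 * P.n → (∀ b k, S b k → ¬ P.R a l b k) → S a l) :
    ∃ j < P.m, ∀ l < 2 * P.n, ∃ l', (l' = l ∨ l' = comp l) ∧ S 0 l' ∧ S (j + 1) l' ∧
      P.C j l' = false := by
  have P1 : ∀ l < 2 * P.n, S 0 l ∨ S 0 (comp l) := by
    intro l hl
    by_contra hno
    push Not at hno
    obtain ⟨h1, h2⟩ := hno
    have e1 : ∃ b k, S b k ∧ P.R 0 l b k := by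
      by_contra hc
      push Not at hc
      exact h1 (hmax 0 l (by omega) hl hc)
    have e2 : ∃ b k, S b k ∧ P.R 0 (comp l) b k := by
      by_contra hc
      push Not at hc
      exact h2 (hmax 0 (comp l) (by omega) (comp_lt hl) hc)
    obtain ⟨b, k, hS, -, hV, hR⟩ := e1
    obtain ⟨b', k', hS', -, hV', hR'⟩ := e2
    have r1 : b ≠ 0 ∧ (l = comp k ∨ P.C (b - 1) l = true) := by
      rcases hR with ⟨h, h'⟩ | ⟨h, h', h''⟩ | ⟨h, h', h''⟩ | ⟨h, h', h''⟩
      · exfalso
        subst h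
        rw [h'] at hS
        exact h2 hS
      · exact ⟨h', h''⟩
      · exact absurd rfl h'
      · exact absurd rfl h
    have r2 : b' ≠ 0 ∧ (comp l = comp k' ∨ P.C (b' - 1) (comp l) = true) := by
      rcases hR' with ⟨h, h'⟩ | ⟨h, h', h''⟩ | ⟨h, h', h''⟩ | ⟨h, h', h''⟩
      · exfalso
        subst h
        rw [h', comp_comp] at hS'
        exact h1 hS'
      · exact ⟨h', h''⟩
      · exact absurd rfl h'
      · exact absurd rfl h
    have hbb : b = b' := by
      by_contra hne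
      exact hst _ _ _ _ hS hS' ⟨hV, hV', Or.inr (Or.inr (Or.inr ⟨r1.1, r2.1, hne⟩))⟩
    subst hbb
    have hbm := (hb _ _ hS).1
    rcases hV with hV | hV
    · exact r1.1 hV
    rcases hV' with hV' | hV'
    · exact r1.1 hV'
    rcases r1.2 with h3 | h3
    · rcases r2.2 with h4 | h4
      · have h5 : l = k' := by
          have := congrArg comp h4
          rwa [comp_comp, comp_comp] at this
        refine hst _ _ _ _ hS hS' ⟨Or.inr hV, Or.inr hV', Or.inl ⟨rfl, ?_⟩⟩
        rw [← h5, h3]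
      · rw [h3, comp_comp, hV] at h4
        exact absurd h4 (by simp)
    · rcases r2.2 with h4 | h4
      · have h5 : l = k' := by
          have := congrArg comp h4
          rwa [comp_comp, comp_comp] at this
        rw [h5, hV'] at h3
        exact absurd h3 (by simp)
      · rw [taut _ (by omega) l hl h3] at h4
        exact absurd h4 (by simp)
  have P0 : ∀ l, S 0 l → ¬ S 0 (comp l) := fun l h h' =>
    hst _ _ _ _ h h' ⟨Or.inl rfl, Or.inl rfl, Or.inl ⟨rfl, rfl⟩⟩
  have P2 : ∀ j l z, S 0 l → S (j + 1) z → P.C j z = false → P.C j l = false := by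
    intro j l z h h' hv
    by_contra hne
    exact hst _ _ _ _ h h' ⟨Or.inl rfl, Or.inr hv, Or.inr (Or.inl ⟨rfl, by omega,
      Or.inr (by simpa using hne)⟩)⟩
  have P3 : ∃ j < P.m, ∃ z, S (j + 1) z ∧ P.C j z = false := by
    by_contra hno
    push Not at hno
    apply unsat
    classical
    refine ⟨fun v => decide (S 0 (2 * v + 1)), fun k hk => ?_⟩
    by_contra hc
    push Not at hc
    have htr : ∀ l < 2 * P.n, S 0 l → tr (fun v => decide (S 0 (2 * v + 1))) l := by
      intro l hl hS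
      unfold tr
      by_cases h : l % 2 = 1
      · rw [decide_eq_true h, decide_eq_true_eq, show 2 * (l / 2) + 1 = l by omega]
        exact hS
      · rw [decide_eq_false h, decide_eq_false_iff_not]
        intro h'
        apply P0 l hS
        have : comp l = 2 * (l / 2) + 1 := by unfold comp; rw [if_pos (by omega)]; omega
        rw [this]
        exact h'
    have hfal : ∀ l, S 0 l → P.C k l = false := by
      intro l hS
      have hl := (hb _ _ hS).2
      by_contra hne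
      exact hc l hl (by simpa using hne) (htr l hl hS)
    obtain ⟨l, hl, hS⟩ : ∃ l < 2 * P.n, S 0 l := by
      rcases P1 0 (by omega) with h | h
      · exact ⟨0, by omega, h⟩
      · exact ⟨comp 0, comp_lt (by omega), h⟩
    refine hno k hk l (hmax _ _ (by omega) hl fun b z hz hR => ?_) (hfal l hS)
    obtain ⟨-, hV, hR⟩ := hR
    rcases hR with ⟨h, h'⟩ | ⟨h, h', h''⟩ | ⟨h, h', h''⟩ | ⟨h, h', h''⟩
    · rcases hV with hV | hV
      · omega
      · refine hno k hk z (by rw [h]; exact hz) ?_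
        rw [← h, Nat.add_sub_cancel] at hV
        exact hV
    · omega
    · subst h
      rcases h'' with h'' | h''
      · exact P0 l hS (by rw [← h'']; exact hz)
      · rw [Nat.add_sub_cancel, hfal z hz] at h''
        exact absurd h'' (by simp)
    · rcases hV with hV | hV
      · exact h' hV
      · have hbm := (hb _ _ hz).1
        refine hno (b - 1) (by omega) z ?_ hV
        rw [Nat.sub_add_cancel (by omega)]
        exact hz
  obtain ⟨j, hj, z, hz, hzv⟩ := P3
  refine ⟨j, hj, fun l hl => ?_⟩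
  have P4 : ∀ l < 2 * P.n, S 0 l → S (j + 1) l := by
    intro l hl hS
    refine hmax _ _ (by omega) hl fun b w hw hR => ?_
    obtain ⟨-, hV, hR⟩ := hR
    rcases hR with ⟨h, h'⟩ | ⟨h, h', h''⟩ | ⟨h, h', h''⟩ | ⟨h, h', h''⟩
    · subst h
      refine hst _ _ _ _ hS hw ⟨Or.inl rfl, hV, Or.inr (Or.inl ⟨rfl, by omega, Or.inl ?_⟩)⟩
      exact comp_eq_iff.1 h'
    · omega
    · subst h
      rcases h'' with h'' | h''
      · exact P0 l hS (by rw [← h'']; exact hw)
      · rw [Nat.add_sub_cancel, P2 j w z hw hz hzv] at h''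
        exact absurd h'' (by simp)
    · exact hst _ _ _ _ hz hw ⟨Or.inr hzv, hV, Or.inr (Or.inr (Or.inr ⟨by omega, h', h''⟩))⟩
  rcases P1 l hl with h | h
  · exact ⟨l, Or.inl rfl, h, P4 l hl h, P2 j l z h hz hzv⟩
  · exact ⟨comp l, Or.inr rfl, h, P4 _ (comp_lt hl) h, P2 j _ z h hz hzv⟩

/-- The set of vertices given by a relation. -/
def vset (P : CF) (c : ℕ → ℕ → Prop) : Set P.Vx := {x | c x.1.1 x.1.2}

/-- A criterion for strong cliques. -/
theorem strong_of (hn : 1 ≤ P.n)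
    (taut : ∀ k < P.m, ∀ l < 2 * P.n, P.C k l = true → P.C k (comp l) = false)
    (unsat : ¬ P.Sat) (c : ℕ → ℕ → Prop)
    (hcl : ∀ a l b k, a ≤ P.m → l < 2 * P.n → b ≤ P.m → k < 2 * P.n → c a l → c b k →
      ¬ (a = b ∧ l = k) → P.R a l b k)
    (hhit : ∀ j < P.m, ∀ f : ℕ → ℕ, (∀ v < 2 * P.n, (f v = v ∨ f v = comp v) ∧
      f (comp v) = f v ∧ P.C j (f v) = false) →
      ∃ v < 2 * P.n, c 0 (f v) ∨ c (j + 1) (f v)) :
    IsStrongClique P.G (vset P c) := by
  constructor
  · rintro ⟨⟨a, l⟩, ha⟩ hx ⟨⟨b, k⟩, hb⟩ hy hne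
    refine hcl a l b k ha.1 ha.2 hb.1 hb.2 hx hy fun h => hne ?_
    exact Subtype.ext (Prod.ext h.1 h.2)
  · intro S hS
    have hst : ∀ a l b k, (∃ h, (⟨(a, l), h⟩ : P.Vx) ∈ S) → (∃ h, (⟨(b, k), h⟩ : P.Vx) ∈ S) →
        ¬ P.R a l b k := by
      rintro a l b k ⟨ha, hx⟩ ⟨hb, hy⟩ hR
      by_cases he : (⟨(a, l), ha⟩ : P.Vx) = ⟨(b, k), hb⟩
      · have h1 : a = b := congrArg (fun x : P.Vx => x.1.1) he
        have h2 : l = k := congrArg (fun x : P.Vx => x.1.2) he
        subst h1 h2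
        exact P.R_irrefl _ _ hR
      · exact hS.1 hx hy he hR
    obtain ⟨j, hj, h⟩ := structure_of_maximal hn taut unsat
      (fun a l => ∃ h, (⟨(a, l), h⟩ : P.Vx) ∈ S) (fun a l h => h.1) hst (by
      intro a l ha hl hno
      refine ⟨⟨ha, hl⟩, ?_⟩
      have h1 : P.G.IsIndepSet (insert (⟨(a, l), ⟨ha, hl⟩⟩ : P.Vx) S) := by
        intro x hx y hy hne hadj
        rcases hx with hx | hx <;> rcases hy with hy | hy
        · exact hne (hx.trans hy.symm)
        · subst hx
          exact hno _ _ ⟨y.2, hy⟩ hadj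
        · subst hy
          exact hno _ _ ⟨x.2, hx⟩ (P.R_symm hadj)
        · exact hS.1 hx hy hne hadj
      exact hS.2 h1 (Set.subset_insert _ _) (Set.mem_insert _ _))
    have hx0 : ∀ l, (∃ h, (⟨(0, l), h⟩ : P.Vx) ∈ S) → ¬ (∃ h, (⟨(0, comp l), h⟩ : P.Vx) ∈ S) :=
      fun l h h' => hst _ _ _ _ h h' ⟨Or.inl rfl, Or.inl rfl, Or.inl ⟨rfl, rfl⟩⟩
    choose! f hf using h
    obtain ⟨v, hv, h2⟩ := hhit j hj f (by
      intro v hv
      obtain ⟨g1, g2, -, g4⟩ := hf v hv
      refine ⟨g1, ?_, g4⟩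
      obtain ⟨k1, k2, -, -⟩ := hf (comp v) (comp_lt hv)
      rw [comp_comp] at k1
      rcases g1 with g1 | g1 <;> rcases k1 with k1 | k1
      · exfalso
        rw [g1] at g2
        rw [k1] at k2
        exact hx0 _ g2 k2
      · rw [g1, k1]
      · rw [g1, k1]
      · exfalso
        rw [g1] at g2
        rw [k1] at k2
        exact hx0 _ k2 g2)
    obtain ⟨-, ⟨q1, q2⟩, ⟨q3, q4⟩, -⟩ := hf v hv
    rcases h2 with h2 | h2
    · exact ⟨_, h2, q2⟩
    · exact ⟨_, h2, q4⟩

theorem everyEdgeStrong_of_unsat (hn : 1 ≤ P.n)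
    (taut : ∀ k < P.m, ∀ l < 2 * P.n, P.C k l = true → P.C k (comp l) = false)
    (unsat : ¬ P.Sat) : EveryEdgeStrong P.G := by
  have T1 : ∀ l < 2 * P.n, IsStrongClique P.G (vset P fun a l' => a = 0 ∧ (l' = l ∨ l' = comp l)) := by
    intro l hl
    refine strong_of hn taut unsat _ ?_ ?_
    · rintro a x b y - - - - ⟨rfl, hx⟩ ⟨rfl, hy⟩ hne
      refine ⟨Or.inl rfl, Or.inl rfl, Or.inl ⟨rfl, ?_⟩⟩
      rcases hx with rfl | rfl <;> rcases hy with rfl | rfl
      · exact absurd ⟨rfl, rfl⟩ hne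
      · rfl
      · rw [comp_comp]
      · exact absurd ⟨rfl, rfl⟩ hne
    · intro j hj f hf
      exact ⟨l, hl, Or.inl ⟨rfl, (hf l hl).1⟩⟩
  -- cliques containing a literal of level 0
  have T2 : ∀ l < 2 * P.n, ∀ (T : ℕ → Prop) (z : ℕ), z < 2 * P.n →
      (∀ j, T j → P.C j l = true) → IsStrongClique P.G (vset P fun a x => (a = 0 ∧ x = l) ∨
        (a ≠ 0 ∧ P.C (a - 1) x = false ∧ ((T (a - 1) ∧ (x = z ∨ x = comp z)) ∨
          (¬ T (a - 1) ∧ x = comp l)))) := by
    intro l hl T z hz hT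
    refine strong_of hn taut unsat _ ?_ ?_
    · rintro a x b y - - - - hx hy hne
      rcases hx with ⟨ha, hx⟩ | ⟨ha, hxv, hx⟩ <;> rcases hy with ⟨hb, hy⟩ | ⟨hb, hyv, hy⟩
      · exact absurd ⟨ha.trans hb.symm, hx.trans hy.symm⟩ hne
      · refine ⟨Or.inl ha, Or.inr hyv, Or.inr (Or.inl ⟨ha, hb, ?_⟩)⟩
        rcases hy with ⟨h, h'⟩ | ⟨h, h'⟩
        · right
          rw [hx]
          exact hT _ h
        · left
          rw [h', comp_comp, hx]
      · refine ⟨Or.inr hxv, Or.inl hb, Or.inr (Or.inr (Or.inl ⟨hb, ha, ?_⟩))⟩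
        rcases hx with ⟨h, h'⟩ | ⟨h, h'⟩
        · right
          rw [hy]
          exact hT _ h
        · left
          rw [h', comp_comp, hy]
      · refine ⟨Or.inr hxv, Or.inr hyv, ?_⟩
        by_cases hab : a = b
        · subst hab
          left
          refine ⟨rfl, ?_⟩
          rcases hx with ⟨h, h'⟩ | ⟨h, h'⟩ <;> rcases hy with ⟨k, k'⟩ | ⟨k, k'⟩
          · rcases h' with rfl | rfl <;> rcases k' with rfl | rfl
            · exact absurd ⟨rfl, rfl⟩ hne
            · rfl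
            · rw [comp_comp]
            · exact absurd ⟨rfl, rfl⟩ hne
          · exact absurd h k
          · exact absurd k h
          · exact absurd ⟨rfl, h'.trans k'.symm⟩ hne
        · exact Or.inr (Or.inr (Or.inr ⟨ha, hb, hab⟩))
    · intro j hj f hf
      by_cases hTj : T j
      · refine ⟨z, hz, Or.inr (Or.inr ⟨by omega, ?_, Or.inl ⟨?_, ?_⟩⟩)⟩
        · rw [Nat.add_sub_cancel]
          exact (hf z hz).2.2
        · rw [Nat.add_sub_cancel]
          exact hTj
        · exact (hf z hz).1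
      · refine ⟨l, hl, ?_⟩
        rcases (hf l hl).1 with h | h
        · exact Or.inl (Or.inl ⟨rfl, h⟩)
        · refine Or.inr (Or.inr ⟨by omega, ?_, Or.inr ⟨?_, h⟩⟩)
          · rw [Nat.add_sub_cancel]
            exact (hf l hl).2.2
          · rw [Nat.add_sub_cancel]
            exact hTj
  -- cliques on the levels of the clauses
  have T3 : ∀ g : ℕ → ℕ, (∀ a, g a < 2 * P.n) → IsStrongClique P.G (vset P fun a x =>
      a ≠ 0 ∧ P.C (a - 1) x = false ∧ (x = g a ∨ x = comp (g a))) := by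
    intro g hg
    refine strong_of hn taut unsat _ ?_ ?_
    · rintro a x b y - - - - ⟨ha, hxv, hx⟩ ⟨hb, hyv, hy⟩ hne
      refine ⟨Or.inr hxv, Or.inr hyv, ?_⟩
      by_cases hab : a = b
      · subst hab
        left
        refine ⟨rfl, ?_⟩
        rcases hx with rfl | rfl <;> rcases hy with rfl | rfl
        · exact absurd ⟨rfl, rfl⟩ hne
        · rfl
        · rw [comp_comp]
        · exact absurd ⟨rfl, rfl⟩ hne
      · exact Or.inr (Or.inr (Or.inr ⟨ha, hb, hab⟩))
    · intro j hj f hf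
      refine ⟨g (j + 1), hg _, Or.inr ⟨by omega, ?_, ?_⟩⟩
      · rw [Nat.add_sub_cancel]
        exact (hf _ (hg _)).2.2
      · exact (hf _ (hg _)).1
  rintro ⟨⟨a, l⟩, ha, hl⟩ ⟨⟨b, k⟩, hb, hk⟩ hadj
  simp only at ha hl hb hk
  obtain ⟨hV, hV', hR⟩ := hadj
  simp only at hV hV' hR
  have lem : ∀ a l b k, a ≤ P.m → l < 2 * P.n → b ≤ P.m → k < 2 * P.n → P.Val b k → a = 0 →
      b ≠ 0 → (l = comp k ∨ P.C (b - 1) l = true) → ∃ c : ℕ → ℕ → Prop, c a l ∧ c b k ∧
      IsStrongClique P.G (vset P c) := by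
    intro a l b k ha hl hb hk hV' h h' h''
    have hv : P.C (b - 1) k = false := by
      rcases hV' with h | h
      · exact absurd h h'
      · exact h
    rcases h'' with h'' | h''
    · refine ⟨_, ?_, ?_, T2 l hl (fun _ => False) k hk (fun _ h => h.elim)⟩
      · exact Or.inl ⟨h, rfl⟩
      · exact Or.inr ⟨h', hv, Or.inr ⟨fun h => h, comp_eq_iff.1 h''⟩⟩
    · refine ⟨_, ?_, ?_, T2 l hl (fun j => j = b - 1) k hk (fun j h => by rw [h]; exact h'')⟩
      · exact Or.inl ⟨h, rfl⟩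
      · exact Or.inr ⟨h', hv, Or.inl ⟨rfl, Or.inl rfl⟩⟩
  rcases hR with ⟨h, h'⟩ | ⟨h, h', h''⟩ | ⟨h, h', h''⟩ | ⟨h, h', h''⟩
  · subst h
    by_cases h0 : a = 0
    · refine ⟨_, ?_, ?_, T1 l hl⟩
      · exact ⟨h0, Or.inl rfl⟩
      · exact ⟨h0, Or.inr h'⟩
    · have hv : P.C (a - 1) l = false := by
        rcases hV with h | h
        · exact absurd h h0
        · exact h
      have hv' : P.C (a - 1) k = false := by
        rcases hV' with h | h
        · exact absurd h h0
        · exact h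
      refine ⟨_, ?_, ?_, T3 (fun _ => l) (fun _ => hl)⟩
      · exact ⟨h0, hv, Or.inl rfl⟩
      · exact ⟨h0, hv', Or.inr h'⟩
  · obtain ⟨c, c1, c2, c3⟩ := lem a l b k ha hl hb hk hV' h h' h''
    exact ⟨_, c1, c2, c3⟩
  · obtain ⟨c, c1, c2, c3⟩ := lem b k a l hb hk ha hl hV h h' h''
    exact ⟨_, c2, c1, c3⟩
  · have hv : P.C (a - 1) l = false := by
      rcases hV with h0 | h0
      · exact absurd h0 h
      · exact h0
    have hv' : P.C (b - 1) k = false := by
      rcases hV' with h0 | h0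
      · exact absurd h0 h'
      · exact h0
    refine ⟨_, ?_, ?_, T3 (fun j => if j = a then l else k) (fun j => by
      split_ifs
      · exact hl
      · exact hk)⟩
    · refine ⟨h, hv, Or.inl ?_⟩
      rw [if_pos rfl]
    · refine ⟨h', hv', Or.inl ?_⟩
      simp only
      rw [if_neg (fun e => h'' e.symm)]

theorem not_everyEdgeStrong_of_sat {k1 k2 z w : ℕ} (hk1 : k1 < P.m) (hk2 : k2 < P.m)
    (hz : z < 2 * P.n) (hw : w < 2 * P.n) (hne : k1 ≠ k2) (hz' : P.C k1 z = false)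
    (hw' : P.C k2 w = false)
    (hsp : ∀ l < 2 * P.n, ¬ ((l = comp z ∨ P.C k1 l = true) ∧ (l = comp w ∨ P.C k2 l = true)))
    (hsat : P.Sat) : ¬ EveryEdgeStrong P.G := by
  intro hE
  obtain ⟨A, hA⟩ := hsat
  obtain ⟨C, hx, hy, hC, hC'⟩ := hE ⟨(k1 + 1, z), ⟨by simp only; omega, hz⟩⟩
    ⟨(k2 + 1, w), ⟨by simp only; omega, hw⟩⟩
    ⟨Or.inr hz', Or.inr hw', Or.inr (Or.inr (Or.inr ⟨by simp, by simp, by simpa using hne⟩))⟩
  have htr : ∀ l, tr A l → ¬ tr A (comp l) := by
    intro l h h'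
    unfold tr at h h'
    rw [comp_div, h] at h'
    unfold comp at h'
    split_ifs at h' with h2
    · rw [decide_eq_decide] at h'
      omega
    · rw [decide_eq_decide] at h'
      omega
  have htr' : ∀ l, ¬ tr A l → tr A (comp l) := by
    intro l h
    unfold tr at h ⊢
    rw [comp_div]
    unfold comp
    split_ifs with h2
    · rw [decide_eq_true (by omega)]
      rw [decide_eq_false (by omega)] at h
      simpa using h
    · rw [decide_eq_false (by omega)]
      rw [decide_eq_true (by omega)] at h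
      simpa using h
  -- the maximal stable set
  have hS : Maximal P.G.IsIndepSet (vset P fun a l => (a = 0 ∧ tr A l) ∨ ¬ P.Val a l) := by
    refine ⟨?_, ?_⟩
    · rintro ⟨⟨a, l⟩, ha⟩ hx ⟨⟨b, k⟩, hb⟩ hy - ⟨hV, hV', hR⟩
      simp only at hV hV' hR
      rcases hx with ⟨h, hl⟩ | h
      · rcases hy with ⟨h', hk⟩ | h'
        · simp only at h h' hl hk
          rcases hR with ⟨-, h1⟩ | ⟨-, h1, -⟩ | ⟨-, h1, -⟩ | ⟨h1, -, -⟩
          · rw [h1] at hk
            exact htr l hl hk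
          · exact h1 h'
          · exact h1 h
          · exact h1 h
        · exact h' hV'
      · exact h hV
    · intro T hT hle
      rintro ⟨⟨a, l⟩, ha, hl⟩ hx
      by_contra hno
      simp only at ha hl
      have hno' : ¬ ((a = 0 ∧ tr A l) ∨ ¬ P.Val a l) := hno
      push Not at hno'
      obtain ⟨g1, g2⟩ := hno'
      by_cases h0 : a = 0
      · have h1 := htr' l (g1 h0)
        have h2 : (⟨(0, comp l), ⟨by simp, comp_lt hl⟩⟩ : P.Vx) ∈ T := hle (Or.inl ⟨rfl, h1⟩)
        refine hT hx h2 ?_ ⟨g2, Or.inl rfl, Or.inl ⟨h0, rfl⟩⟩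
        intro he
        have := congrArg (fun x : P.Vx => x.1.2) he
        exact comp_ne l this.symm
      · obtain ⟨l', hl', h3, h4⟩ := hA (a - 1) (by omega)
        have h2 : (⟨(0, l'), ⟨by simp, hl'⟩⟩ : P.Vx) ∈ T := hle (Or.inl ⟨rfl, h4⟩)
        refine hT hx h2 ?_ ⟨g2, Or.inl rfl, Or.inr (Or.inr (Or.inl ⟨rfl, h0, Or.inr h3⟩))⟩
        intro he
        have := congrArg (fun x : P.Vx => x.1.1) he
        exact h0 this
  obtain ⟨⟨⟨a, l⟩, ha, hl⟩, h1, h2⟩ := hC' _ hS
  simp only at ha hl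
  have h2' : (a = 0 ∧ tr A l) ∨ ¬ P.Val a l := h2
  have e1 := hC h1 hx
  have e2 := hC h1 hy
  rcases h2' with ⟨h0, -⟩ | h0
  · subst h0
    have f1 := e1 (fun he => by
      have := congrArg (fun x : P.Vx => x.1.1) he
      simp at this)
    have f2 := e2 (fun he => by
      have := congrArg (fun x : P.Vx => x.1.1) he
      simp at this)
    refine hsp l hl ⟨?_, ?_⟩
    · obtain ⟨-, -, h3⟩ := f1
      rcases h3 with ⟨h, -⟩ | ⟨-, -, h⟩ | ⟨h, -⟩ | ⟨h, -⟩
      · simp at h
      · simpa using h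
      · simp at h
      · simp at h
    · obtain ⟨-, -, h3⟩ := f2
      rcases h3 with ⟨h, -⟩ | ⟨-, -, h⟩ | ⟨h, -⟩ | ⟨h, -⟩
      · simp at h
      · simpa using h
      · simp at h
      · simp at h
  · by_cases he : (⟨(a, l), ⟨ha, hl⟩⟩ : P.Vx) = ⟨(k1 + 1, z), ⟨by simp only; omega, hz⟩⟩
    · have g1 : a = k1 + 1 := congrArg (fun x : P.Vx => x.1.1) he
      have g2 : l = z := congrArg (fun x : P.Vx => x.1.2) he
      apply h0
      right
      rw [g1, g2, Nat.add_sub_cancel]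
      exact hz'
    · exact h0 (e1 he).1

end CF

end Pool.Agent.helper506_es
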