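import Pool.Agent.helper506_sr.Defs
import Pool.Agent.NPC.Classes

/-!
# Strong cliques and the problem EDGE-STRONG

The definitions follow the statement of the problem word for word. Adjacency lists
(`IsAdjacencyLists`, `graph`) are defined in `Pool.Agent.helper506_sr.Defs`.
-/

set_option autoImplicit false

namespace Pool.Agent.helper506_es

open Pool.Agent.helper506_sr (IsAdjacencyLists graph)

/-- A clique is strong if it intersects every (inclusion-)maximal stable set. -/
def IsStrongClique {V : Type} (G : SimpleGraph V) (C : Set V) : Prop :=
  G.IsClique C ∧ ∀ S : Set V, Maximal G.IsIndepSet S → (C ∩ S).Nonempty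

/-- Every edge is contained in some strong clique. -/
def EveryEdgeStrong {V : Type} (G : SimpleGraph V) : Prop :=
  ∀ x y : V, G.Adj x y → ∃ C : Set V, x ∈ C ∧ y ∈ C ∧ IsStrongClique G C

/-- **EDGE-STRONG.**  The input is a finite simple graph, given by its adjacency lists; the question
is whether every edge is contained in some strong clique. -/
def EdgeStrong (L : List (List ℕ)) : Prop := IsAdjacencyLists L ∧ EveryEdgeStrong (graph L)

end Pool.Agent.helper506_es
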