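import Pool.Agent.helper506_es.Defs

/-!
# From graphs on arbitrary vertex sets to adjacency lists
-/

set_option autoImplicit false

namespace Pool.Agent.helper506_es

open Pool.Agent.helper506_sr (IsAdjacencyLists graph)

variable {V W : Type}

theorem indep_image {G : SimpleGraph V} {H : SimpleGraph W} (e : V ≃ W)
    (he : ∀ x y, G.Adj x y ↔ H.Adj (e x) (e y)) {S : Set W} :
    G.IsIndepSet (e ⁻¹' S) ↔ H.IsIndepSet S := by
  constructor
  · intro h x hx y hy hne hadj
    have h1 := h (x := e.symm x) (by simpa using hx) (y := e.symm y) (by simpa using hy)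
      (fun h => hne (e.symm.injective h))
    apply h1
    rw [he]
    simpa using hadj
  · intro h x hx y hy hne hadj
    exact h hx hy (fun h => hne (e.injective h)) ((he x y).1 hadj)

theorem maximal_image {G : SimpleGraph V} {H : SimpleGraph W} (e : V ≃ W)
    (he : ∀ x y, G.Adj x y ↔ H.Adj (e x) (e y)) {S : Set W} (hS : Maximal H.IsIndepSet S) :
    Maximal G.IsIndepSet (e ⁻¹' S) := by
  refine ⟨(indep_image e he).2 hS.1, fun T hT hle => ?_⟩
  have h1 : H.IsIndepSet (e.symm ⁻¹' T) := by
    rw [← indep_image e he]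
    convert hT using 1
    ext x
    simp
  have h2 := hS.2 h1 (fun y hy => by
    have : e.symm y ∈ e ⁻¹' S := by simpa using hy
    exact hle this)
  intro x hx
  have : e x ∈ e.symm ⁻¹' T := by simpa using hx
  exact h2 this

theorem everyEdgeStrong_of_equiv {G : SimpleGraph V} {H : SimpleGraph W} (e : V ≃ W)
    (he : ∀ x y, G.Adj x y ↔ H.Adj (e x) (e y)) (h : EveryEdgeStrong G) : EveryEdgeStrong H := by
  intro x y hxy
  obtain ⟨C, hx, hy, hC, hC'⟩ := h (e.symm x) (e.symm y) (by rw [he]; simpa using hxy)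
  refine ⟨e.symm ⁻¹' C, hx, hy, ?_, ?_⟩
  · intro a ha b hb hne
    have h1 := hC ha hb (fun h => hne (e.symm.injective h))
    rw [he] at h1
    simpa using h1
  · intro S hS
    obtain ⟨z, hz, hz'⟩ := hC' _ (maximal_image e he hS)
    exact ⟨e z, by simpa using hz, hz'⟩

theorem everyEdgeStrong_equiv {G : SimpleGraph V} {H : SimpleGraph W} (e : V ≃ W)
    (he : ∀ x y, G.Adj x y ↔ H.Adj (e x) (e y)) : EveryEdgeStrong G ↔ EveryEdgeStrong H :=
  ⟨everyEdgeStrong_of_equiv e he, everyEdgeStrong_of_equiv e.symm (fun x y => by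
    rw [he]; simp)⟩

/-- the adjacency lists of a graph -/
def lists (N : ℕ) (adj : ℕ → ℕ → Bool) : List (List ℕ) :=
  (List.range N).map (fun u => (List.range N).filter (adj u))

theorem lists_length (N : ℕ) (adj : ℕ → ℕ → Bool) : (lists N adj).length = N := by simp [lists]

theorem lists_get {N : ℕ} {adj : ℕ → ℕ → Bool} {u : ℕ} (hu : u < (lists N adj).length) :
    (lists N adj)[u] = (List.range N).filter (adj u) := by
  simp [lists]

theorem lists_adj {N : ℕ} {adj : ℕ → ℕ → Bool} (hs : ∀ u < N, ∀ v < N, adj u v = adj v u)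
    (hi : ∀ u < N, adj u u = false) : IsAdjacencyLists (lists N adj) := by
  intro v hv
  have hvN : v < N := by rw [lists_length] at hv; exact hv
  rw [lists_get]
  refine ⟨List.nodup_range.filter _, ?_, ?_⟩
  · rw [List.mem_filter]
    rintro ⟨-, h⟩
    rw [hi v hvN] at h
    exact absurd h (by simp)
  · intro w hw
    rw [List.mem_filter, List.mem_range] at hw
    refine ⟨by rw [lists_length]; exact hw.1, ?_⟩
    rw [lists_get, List.mem_filter, List.mem_range]
    exact ⟨hvN, by rw [hs w hw.1 v hvN]; exact hw.2⟩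

/-- A graph given by a numbering of its vertices. -/
theorem edgeStrong_lists {N : ℕ} {adj : ℕ → ℕ → Bool} (G : SimpleGraph V) (e : V ≃ Fin N)
    (he : ∀ x y, G.Adj x y ↔ adj (e x) (e y) = true) :
    EdgeStrong (lists N adj) ↔ EveryEdgeStrong G := by
  have hs : ∀ u < N, ∀ v < N, adj u v = adj v u := by
    intro u hu v hv
    have h1 := he (e.symm ⟨u, hu⟩) (e.symm ⟨v, hv⟩)
    have h2 := he (e.symm ⟨v, hv⟩) (e.symm ⟨u, hu⟩)
    rw [G.adj_comm, h2] at h1
    simp only [Equiv.apply_symm_apply] at h1
    cases h3 : adj u v <;> cases h4 : adj v u <;> simp_all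
  have hi : ∀ u < N, adj u u = false := by
    intro u hu
    have h1 := he (e.symm ⟨u, hu⟩) (e.symm ⟨u, hu⟩)
    simp only [Equiv.apply_symm_apply] at h1
    have h2 : ¬ G.Adj (e.symm ⟨u, hu⟩) (e.symm ⟨u, hu⟩) := G.loopless.irrefl _
    cases h3 : adj u u
    · rfl
    · exact absurd (h1.2 h3) h2
  have hadj := lists_adj hs hi
  have key : EveryEdgeStrong G ↔ EveryEdgeStrong (graph (lists N adj)) := by
    refine everyEdgeStrong_equiv (e.trans (finCongr (lists_length N adj).symm)) fun x y => ?_
    rw [he]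
    have hx := (e x).2
    have hy := (e y).2
    have g1 : ∀ (u v : ℕ) (hu : u < N) (hv : v < N),
        v ∈ (lists N adj)[u]'(by rw [lists_length]; exact hu) ↔ adj u v = true := by
      intro u v hu hv
      rw [lists_get, List.mem_filter, List.mem_range]
      exact ⟨fun h => h.2, fun h => ⟨hv, h⟩⟩
    constructor
    · intro h
      refine ⟨?_, ?_, ?_⟩
      · intro h'
        have h2 : (e x : ℕ) = (e y : ℕ) := by
          have := congrArg Fin.val h'
          simpa using this
        rw [h2, hi _ hy] at h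
        exact absurd h (by simp)
      · exact (g1 _ _ hx hy).2 h
      · refine (g1 _ _ hy hx).2 ?_
        rw [hs _ hy _ hx]
        exact h
    · rintro ⟨-, h, -⟩
      exact (g1 _ _ hx hy).1 h
  rw [key]
  exact ⟨fun h => h.2, fun h => ⟨hadj, h⟩⟩

end Pool.Agent.helper506_es
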