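import Pool.Agent.helper506_es.NPI
import Pool.Agent.helper506_es.Trans
import Pool.Agent.helper506_sr.Pol
import Pool.Agent.helper506_cf.Pol
import Pool.Agent.NPC.Sat2

/-!
# The reductions
-/

set_option autoImplicit false

namespace Pool.Agent.helper506_es

open Pool.Agent.NPC
open Pool.Agent.helper506_sr (Cl litOf)

/-- the code of a literal -/
def code (l : Lit ℕ) : ℕ := 2 * l.2 + (if l.1 = true then 1 else 0)

theorem tr_code (A : ℕ → Bool) (l : Lit ℕ) : CF.tr A (code l) ↔ A l.2 = l.1 := by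
  obtain ⟨s, v⟩ := l
  unfold CF.tr code
  cases s
  · simp
  · have h1 : (2 * v + 1) / 2 = v := by omega
    have h2 : (2 * v + 1) % 2 = 1 := by omega
    simp [h1, h2]

theorem code_div (l : Lit ℕ) : code l / 2 = l.2 := by
  unfold code
  split_ifs <;> omega

/-- the numbering of the vertices of a grid -/
def grid (pr : ℕ × ℕ → Prop) (M X : ℕ) (h : ∀ p, pr p ↔ p.1 < M ∧ p.2 < X) :
    {p : ℕ × ℕ // pr p} ≃ Fin (M * X) where
  toFun p := ⟨p.1.1 * X + p.1.2, by
    have := (h _).1 p.2
    calc p.1.1 * X + p.1.2 < p.1.1 * X + X := by omega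
      _ = (p.1.1 + 1) * X := by ring
      _ ≤ M * X := Nat.mul_le_mul_right _ this.1⟩
  invFun i := ⟨(i.1 / X, i.1 % X), by
    have h1 : (i : ℕ) < M * X := i.2
    have hX : 0 < X := by
      by_contra h0
      have h3 : X = 0 := by omega
      subst h3
      exact absurd h1 (by simp)
    have h2 : (i : ℕ) < X * M := lt_of_lt_of_eq h1 (Nat.mul_comm _ _)
    rw [h]
    exact ⟨Nat.div_lt_of_lt_mul h2, Nat.mod_lt _ hX⟩⟩
  left_inv := by
    rintro ⟨⟨a, x⟩, hp⟩
    have hx := ((h _).1 hp).2
    simp only at hx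
    apply Subtype.ext
    simp only
    rw [Nat.add_comm, Nat.mul_comm, Nat.add_mul_div_left _ _ (by omega), Nat.div_eq_of_lt hx,
      Nat.add_mul_mod_self_left, Nat.mod_eq_of_lt hx, Nat.zero_add]
  right_inv := by
    intro i
    apply Fin.ext
    simp only
    rw [Nat.mul_comm]
    exact Nat.div_add_mod _ _

theorem grid_div {pr : ℕ × ℕ → Prop} {M X : ℕ} (h : ∀ p, pr p ↔ p.1 < M ∧ p.2 < X)
    (p : {p : ℕ × ℕ // pr p}) : (grid pr M X h p : ℕ) / X = p.1.1 ∧
      (grid pr M X h p : ℕ) % X = p.1.2 := by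
  have h1 := (grid pr M X h).left_inv p
  have h2 := congrArg (fun t : {p : ℕ × ℕ // pr p} => t.1) h1
  exact ⟨congrArg Prod.fst h2, congrArg Prod.snd h2⟩

/-! ### NP-hardness -/

/-- the literals at the places -/
def ocN (φ : List Cl) (x : ℕ) : ℕ :=
  if x % 5 < 3 then code (litOf φ (3 * (x / 5) + x % 5)) else
    if x % 5 = 3 then 6 * φ.length else 6 * φ.length + 2

/-- the formula with the new variables -/
def nf (φ : List Cl) : NF where
  N := 3 * φ.length + 2
  m := φ.length
  oc := ocN φ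
  lz := 6 * φ.length + 1
  lw := 6 * φ.length + 3

theorem litOf_eq (φ : List Cl) {c : ℕ} (hc : c < φ.length) :
    litOf φ (3 * c) = φ[c].1 ∧ litOf φ (3 * c + 1) = φ[c].2.1 ∧ litOf φ (3 * c + 2) = φ[c].2.2 := by
  unfold litOf
  have h0 : 3 * c / 3 = c := by omega
  have h1 : (3 * c + 1) / 3 = c := by omega
  have h2 : (3 * c + 2) / 3 = c := by omega
  have m0 : 3 * c % 3 = 0 := by omega
  have m1 : (3 * c + 1) % 3 = 1 := by omega
  have m2 : (3 * c + 2) % 3 = 2 := by omega
  rw [h0, h1, h2, m0, m1, m2, List.getD_eq_getElem _ _ hc]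
  exact ⟨rfl, rfl, rfl⟩

theorem ocN_of_lt (φ : List Cl) {c r : ℕ} (hr : r < 3) :
    ocN φ (5 * c + r) = code (litOf φ (3 * c + r)) := by
  unfold ocN
  rw [if_pos (by omega), show (5 * c + r) / 5 = c by omega, show (5 * c + r) % 5 = r by omega]

theorem nf_good (φ : List Cl) (hd : Distinct3 φ) (hb : Bounded3 φ) : (nf φ).Good := by
  have hlt : ∀ c < φ.length, ∀ r < 3, (litOf φ (3 * c + r)).2 < 3 * φ.length := by
    intro c hc r hr
    obtain ⟨h0, h1, h2⟩ := litOf_eq φ hc
    obtain ⟨b0, b1, b2⟩ := hb _ (List.getElem_mem hc)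
    rcases (by omega : r = 0 ∨ r = 1 ∨ r = 2) with rfl | rfl | rfl
    · rw [Nat.add_zero, h0]
      exact b0
    · rw [h1]
      exact b1
    · rw [h2]
      exact b2
  refine ⟨?_, ?_, ?_, ?_, ?_, ?_, ?_⟩
  · change 6 * φ.length + 1 < 2 * (3 * φ.length + 2)
    omega
  · change 6 * φ.length + 3 < 2 * (3 * φ.length + 2)
    omega
  · change (6 * φ.length + 1) / 2 ≠ (6 * φ.length + 3) / 2
    omega
  · intro c hc
    change ocN φ (5 * c + 3) = comp (6 * φ.length + 1)
    unfold ocN comp
    rw [if_neg (by omega), if_pos (by omega), if_neg (by omega)]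
    omega
  · intro c hc
    change ocN φ (5 * c + 4) = comp (6 * φ.length + 3)
    unfold ocN comp
    rw [if_neg (by omega), if_neg (by omega), if_neg (by omega)]
    omega
  · intro c hc r hr
    change ocN φ (5 * c + r) < 2 * (3 * φ.length + 2) ∧
      ocN φ (5 * c + r) / 2 ≠ (6 * φ.length + 1) / 2 ∧
      ocN φ (5 * c + r) / 2 ≠ (6 * φ.length + 3) / 2
    have h1 := hlt c hc r hr
    have h2 := code_div (litOf φ (3 * c + r))
    rw [ocN_of_lt φ hr]
    omega
  · intro c hc r hr s hs hrs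
    change ocN φ (5 * c + r) / 2 ≠ ocN φ (5 * c + s) / 2
    rw [ocN_of_lt φ hr, ocN_of_lt φ hs, code_div, code_div]
    have hc' : c < φ.length := hc
    obtain ⟨h0, h1, h2⟩ := litOf_eq φ hc'
    obtain ⟨b0, b1, b2⟩ := hd _ (List.getElem_mem hc')
    rcases (by omega : r = 0 ∨ r = 1 ∨ r = 2) with rfl | rfl | rfl <;>
    rcases (by omega : s = 0 ∨ s = 1 ∨ s = 2) with rfl | rfl | rfl
    · exact absurd rfl hrs
    · rw [Nat.add_zero, h0, h1]
      exact b0
    · rw [Nat.add_zero, h0, h2]
      exact b1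
    · rw [show 3 * c + 0 = 3 * c from rfl, h0, h1]
      exact b0.symm
    · exact absurd rfl hrs
    · rw [h1, h2]
      exact b2
    · rw [show 3 * c + 0 = 3 * c from rfl, h0, h2]
      exact b1.symm
    · rw [h1, h2]
      exact b2.symm
    · exact absurd rfl hrs

theorem nf_sat (φ : List Cl) : (nf φ).Sat ↔ SAT3 φ := by
  have key : ∀ A : ℕ → Bool, ∀ c (hc : c < φ.length),
      (∃ r < 3, CF.tr A ((nf φ).oc (5 * c + r))) ↔
      (A φ[c].1.2 = φ[c].1.1 ∨ A φ[c].2.1.2 = φ[c].2.1.1 ∨ A φ[c].2.2.2 = φ[c].2.2.1) := by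
    intro A c hc
    obtain ⟨h0, h1, h2⟩ := litOf_eq φ hc
    have hh : ∀ r < 3, (CF.tr A ((nf φ).oc (5 * c + r)) ↔
        A (litOf φ (3 * c + r)).2 = (litOf φ (3 * c + r)).1) := by
      intro r hr
      change CF.tr A (ocN φ (5 * c + r)) ↔ _
      rw [ocN_of_lt φ hr, tr_code]
    constructor
    · rintro ⟨r, hr, h3⟩
      rw [hh r hr] at h3
      rcases (by omega : r = 0 ∨ r = 1 ∨ r = 2) with rfl | rfl | rfl
      · rw [Nat.add_zero, h0] at h3
        exact Or.inl h3
      · rw [h1] at h3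
        exact Or.inr (Or.inl h3)
      · rw [h2] at h3
        exact Or.inr (Or.inr h3)
    · rintro (h3 | h3 | h3)
      · refine ⟨0, by omega, ?_⟩
        rw [hh 0 (by omega), Nat.add_zero, h0]
        exact h3
      · refine ⟨1, by omega, ?_⟩
        rw [hh 1 (by omega), h1]
        exact h3
      · refine ⟨2, by omega, ?_⟩
        rw [hh 2 (by omega), h2]
        exact h3
  constructor
  · rintro ⟨A, hA⟩
    refine ⟨A, fun c hc => ?_⟩
    obtain ⟨i, hi, rfl⟩ := List.getElem_of_mem hc
    exact (key A i hi).1 (hA i hi)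
  · rintro ⟨A, hA⟩
    exact ⟨A, fun c hc => (key A c hc).2 (hA _ (List.getElem_mem hc))⟩

/-- the vertices of a pair of a level and a number -/
def adjN (φ : List Cl) (i j : ℕ) : Prop :=
  (nf φ).R (i / (nf φ).X) (i % (nf φ).X) (j / (nf φ).X) (j % (nf φ).X)

instance (P : NF) (a x : ℕ) : Decidable (P.Val a x) := by unfold NF.Val; infer_instance

instance (P : NF) (a x b y : ℕ) : Decidable (P.Conf a x b y) := by unfold NF.Conf; infer_instance

instance (P : NF) (a x b y : ℕ) : Decidable (P.R a x b y) := by unfold NF.R; infer_instance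

instance (φ : List Cl) (i j : ℕ) : Decidable (adjN φ i j) := by unfold adjN; infer_instance

/-- the first reduction -/
def redN (φ : List Cl) : List (List ℕ) :=
  lists (3 * (nf φ).X) (fun i j => decide (adjN φ i j))

theorem redN_iff (φ : List Cl) (hd : Distinct3 φ) (hb : Bounded3 φ) :
    SAT3 φ ↔ EdgeStrong (redN φ) := by
  rw [redN, edgeStrong_lists (nf φ).G (grid _ 3 (nf φ).X fun _ => Iff.rfl),
    NF.everyEdgeStrong_iff (nf_good φ hd hb), nf_sat]
  intro x y
  rw [decide_eq_true_iff]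
  unfold adjN
  obtain ⟨h1, h2⟩ := grid_div (X := (nf φ).X) (M := 3) (fun _ => Iff.rfl) x
  obtain ⟨h3, h4⟩ := grid_div (X := (nf φ).X) (M := 3) (fun _ => Iff.rfl) y
  rw [h1, h2, h3, h4]
  rfl

/-! ### coNP-hardness -/

/-- the clauses, together with two clauses with one new variable each -/
def clC (φ : List Cl) (k l : ℕ) : Bool :=
  if k < φ.length then
    decide (l = code (litOf φ (3 * k)) ∨ l = code (litOf φ (3 * k + 1)) ∨
      l = code (litOf φ (3 * k + 2)))
  else if k = φ.length then decide (l = 6 * φ.length + 1) else decide (l = 6 * φ.length + 3)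

/-- the formula with the two additional clauses -/
def cf (φ : List Cl) : CF where
  n := 3 * φ.length + 2
  m := φ.length + 2
  C := clC φ

theorem clC_lt {φ : List Cl} {k l : ℕ} (hk : k < φ.length) : clC φ k l = true ↔
    l = code (litOf φ (3 * k)) ∨ l = code (litOf φ (3 * k + 1)) ∨
      l = code (litOf φ (3 * k + 2)) := by
  unfold clC
  rw [if_pos hk, decide_eq_true_iff]

theorem clC_len {φ : List Cl} {l : ℕ} : clC φ φ.length l = true ↔ l = 6 * φ.length + 1 := by
  unfold clC
  rw [if_neg (by omega), if_pos rfl, decide_eq_true_iff]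

theorem clC_len' {φ : List Cl} {l : ℕ} : clC φ (φ.length + 1) l = true ↔
    l = 6 * φ.length + 3 := by
  unfold clC
  rw [if_neg (by omega), if_neg (by omega), decide_eq_true_iff]

theorem cf_taut (φ : List Cl) (hd : Distinct3 φ) : ∀ k < (cf φ).m, ∀ l < 2 * (cf φ).n,
    (cf φ).C k l = true → (cf φ).C k (comp l) = false := by
  intro k hk l hl h1
  have hk' : k < φ.length + 2 := hk
  change clC φ k l = true at h1
  change clC φ k (comp l) = false
  rw [Bool.eq_false_iff]
  intro h2
  rcases (by omega : k < φ.length ∨ k = φ.length ∨ k = φ.length + 1) with h | h | h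
  · rw [clC_lt h] at h1 h2
    obtain ⟨e0, e1, e2⟩ := litOf_eq φ h
    obtain ⟨b0, b1, b2⟩ := hd _ (List.getElem_mem h)
    have d0 := code_div (litOf φ (3 * k))
    have d1 := code_div (litOf φ (3 * k + 1))
    have d2 := code_div (litOf φ (3 * k + 2))
    rw [e0] at d0
    rw [e1] at d1
    rw [e2] at d2
    rw [e0, e1, e2] at h1 h2
    have hcd := comp_div l
    have hcn := comp_ne l
    rcases h1 with h1 | h1 | h1 <;> rcases h2 with h2 | h2 | h2 <;> omega
  · subst h
    rw [clC_len] at h1 h2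
    exact comp_ne l (h2.trans h1.symm)
  · subst h
    rw [clC_len'] at h1 h2
    exact comp_ne l (h2.trans h1.symm)

theorem cf_sat (φ : List Cl) (hb : Bounded3 φ) : (cf φ).Sat ↔ SAT3 φ := by
  constructor
  · rintro ⟨A, hA⟩
    refine ⟨A, fun c hc => ?_⟩
    obtain ⟨i, hi, rfl⟩ := List.getElem_of_mem hc
    obtain ⟨l, hl, h1, h2⟩ := hA i (by change i < φ.length + 2; omega)
    change clC φ i l = true at h1
    obtain ⟨e0, e1, e2⟩ := litOf_eq φ hi
    rw [clC_lt hi, e0, e1, e2] at h1
    rcases h1 with rfl | rfl | rfl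
    · exact Or.inl ((tr_code A _).1 h2)
    · exact Or.inr (Or.inl ((tr_code A _).1 h2))
    · exact Or.inr (Or.inr ((tr_code A _).1 h2))
  · rintro ⟨A, hA⟩
    let A' : ℕ → Bool := fun v => if v < 3 * φ.length then A v else true
    refine ⟨A', fun k hk => ?_⟩
    have hk' : k < φ.length + 2 := hk
    have hA' : ∀ l : Lit ℕ, l.2 < 3 * φ.length → (CF.tr A' (code l) ↔ A l.2 = l.1) := by
      intro l hl
      rw [tr_code]
      simp only [A']
      rw [if_pos hl]
    rcases (by omega : k < φ.length ∨ k = φ.length ∨ k = φ.length + 1) with h | h | h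
    · obtain ⟨e0, e1, e2⟩ := litOf_eq φ h
      obtain ⟨b0, b1, b2⟩ := hb _ (List.getElem_mem h)
      have hcl : ∀ l : Lit ℕ, l.2 < 3 * φ.length → code l < 2 * (cf φ).n := by
        intro l hl
        change code l < 2 * (3 * φ.length + 2)
        have := code_div l
        omega
      rcases hA _ (List.getElem_mem h) with h1 | h1 | h1
      · exact ⟨_, hcl _ b0, (clC_lt h).2 (Or.inl (by rw [e0])), (hA' _ b0).2 h1⟩
      · exact ⟨_, hcl _ b1, (clC_lt h).2 (Or.inr (Or.inl (by rw [e1]))), (hA' _ b1).2 h1⟩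
      · exact ⟨_, hcl _ b2, (clC_lt h).2 (Or.inr (Or.inr (by rw [e2]))), (hA' _ b2).2 h1⟩
    · subst h
      refine ⟨6 * φ.length + 1, ?_, clC_len.2 rfl, ?_⟩
      · change 6 * φ.length + 1 < 2 * (3 * φ.length + 2)
        omega
      · unfold CF.tr
        simp only [A']
        rw [if_neg (by omega), decide_eq_true (by omega)]
    · subst h
      refine ⟨6 * φ.length + 3, ?_, clC_len'.2 rfl, ?_⟩
      · change 6 * φ.length + 3 < 2 * (3 * φ.length + 2)
        omega
      · unfold CF.tr
        simp only [A']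
        rw [if_neg (by omega), decide_eq_true (by omega)]

theorem cf_iff (φ : List Cl) (hd : Distinct3 φ) (hb : Bounded3 φ) :
    EveryEdgeStrong (cf φ).G ↔ ¬ SAT3 φ := by
  rw [← cf_sat φ hb]
  constructor
  · intro hE hsat
    have hcm : comp (6 * φ.length) = 6 * φ.length + 1 := by
      unfold comp
      rw [if_pos (by omega)]
    have hcm' : comp (6 * φ.length + 2) = 6 * φ.length + 3 := by
      unfold comp
      rw [if_pos (by omega)]
    refine CF.not_everyEdgeStrong_of_sat (P := cf φ) (k1 := φ.length) (k2 := φ.length + 1)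
      (z := 6 * φ.length) (w := 6 * φ.length + 2) ?_ ?_ ?_ ?_ (by omega) ?_ ?_ ?_ hsat hE
    · change φ.length < φ.length + 2
      omega
    · change φ.length + 1 < φ.length + 2
      omega
    · change 6 * φ.length < 2 * (3 * φ.length + 2)
      omega
    · change 6 * φ.length + 2 < 2 * (3 * φ.length + 2)
      omega
    · change clC φ φ.length (6 * φ.length) = false
      rw [Bool.eq_false_iff]
      intro h1
      rw [clC_len] at h1
      omega
    · change clC φ (φ.length + 1) (6 * φ.length + 2) = false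
      rw [Bool.eq_false_iff]
      intro h1
      rw [clC_len'] at h1
      omega
    · intro l hl
      change ¬ ((l = comp (6 * φ.length) ∨ clC φ φ.length l = true) ∧
        (l = comp (6 * φ.length + 2) ∨ clC φ (φ.length + 1) l = true))
      rw [hcm, hcm', clC_len, clC_len']
      omega
  · intro hsat
    refine CF.everyEdgeStrong_of_unsat ?_ (cf_taut φ hd) hsat
    change 1 ≤ 3 * φ.length + 2
    omega

/-- adjacency of numbered vertices -/
def adjC (φ : List Cl) (i j : ℕ) : Prop :=
  (cf φ).R (i / (6 * φ.length + 4)) (i % (6 * φ.length + 4)) (j / (6 * φ.length + 4))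
    (j % (6 * φ.length + 4))

instance (P : CF) (a x : ℕ) : Decidable (P.Val a x) := by unfold CF.Val; infer_instance

instance (P : CF) (a x b y : ℕ) : Decidable (P.R a x b y) := by unfold CF.R; infer_instance

instance (φ : List Cl) (i j : ℕ) : Decidable (adjC φ i j) := by unfold adjC; infer_instance

/-- the second reduction -/
def redC (φ : List Cl) : List (List ℕ) :=
  lists ((φ.length + 3) * (6 * φ.length + 4)) (fun i j => decide (adjC φ i j))

theorem redC_iff (φ : List Cl) (hd : Distinct3 φ) (hb : Bounded3 φ) :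
    SAT3 φ ↔ ¬ EdgeStrong (redC φ) := by
  have hg : ∀ p : ℕ × ℕ, (p.1 ≤ (cf φ).m ∧ p.2 < 2 * (cf φ).n) ↔
      (p.1 < φ.length + 3 ∧ p.2 < 6 * φ.length + 4) := by
    intro p
    change (p.1 ≤ φ.length + 2 ∧ p.2 < 2 * (3 * φ.length + 2)) ↔ _
    omega
  rw [redC, edgeStrong_lists (cf φ).G (grid _ (φ.length + 3) (6 * φ.length + 4) hg),
    cf_iff φ hd hb, not_not]
  intro x y
  rw [decide_eq_true_iff]
  unfold adjC
  obtain ⟨h1, h2⟩ := grid_div hg x
  obtain ⟨h3, h4⟩ := grid_div hg y
  rw [h1, h2, h3, h4]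
  rfl

end Pool.Agent.helper506_es
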