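import Pool.Agent.helper506_es.CoNP

/-!
# The graph for NP-hardness

Let a formula in conjunctive normal form be given, with three literals per clause, and let `z` and
`w` be two new variables. We add the literals `not z` and `not w` to every clause. The graph has a
vertex `(0, l)` for every literal `l` and vertices `(1, x)` and `(2, x)` for every occurrence `x` of
a literal in a clause; `(1, x)` stands for `x` being the literal chosen in its clause and `(2, x)`
stands for `x` being true but not chosen. Vertices are adjacent if they are compatible. The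
strong cliques are the solutions. Every edge except for the edge from `z` to `w` is contained in a
strong clique, and a strong clique containing this edge is a satisfying assignment.
-/

set_option autoImplicit false

namespace Pool.Agent.helper506_es

/-- a formula: number of variables, number of clauses, the literals in the clauses, the literals
`z` and `w` -/
structure NF where
  /-- number of variables -/
  N : ℕ
  /-- number of clauses -/
  m : ℕ
  /-- the literals at the places -/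
  oc : ℕ → ℕ
  /-- the literal `z` -/
  lz : ℕ
  /-- the literal `w` -/
  lw : ℕ

namespace NF

open CF (tr)

variable (P : NF)

/-- conditions -/
structure Good : Prop where
  hz : P.lz < 2 * P.N
  hw : P.lw < 2 * P.N
  hzw : P.lz / 2 ≠ P.lw / 2
  h3 : ∀ c < P.m, P.oc (5 * c + 3) = comp P.lz
  h4 : ∀ c < P.m, P.oc (5 * c + 4) = comp P.lw
  h5 : ∀ c < P.m, ∀ r < 3, P.oc (5 * c + r) < 2 * P.N ∧ P.oc (5 * c + r) / 2 ≠ P.lz / 2 ∧
    P.oc (5 * c + r) / 2 ≠ P.lw / 2
  hd : ∀ c < P.m, ∀ r < 3, ∀ s < 3, r ≠ s → P.oc (5 * c + r) / 2 ≠ P.oc (5 * c + s) / 2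

/-- satisfiability of the original formula -/
def Sat : Prop := ∃ A : ℕ → Bool, ∀ c < P.m, ∃ r < 3, tr A (P.oc (5 * c + r))

/-- the number of vertices on each of the three levels -/
def X : ℕ := 2 * P.N + 5 * P.m

/-- the vertices which are not isolated -/
def Val (a x : ℕ) : Prop := (a = 0 ∧ x < 2 * P.N) ∨ ((a = 1 ∨ a = 2) ∧ x < 5 * P.m)

/-- the literal of a vertex -/
def lt (a x : ℕ) : ℕ := if a = 0 then x else P.oc x

/-- conflicts -/
def Conf (a x b y : ℕ) : Prop := P.lt a x = comp (P.lt b y) ∨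
  (a = 1 ∧ b = 1 ∧ x ≠ y ∧ x / 5 = y / 5) ∨ (x = y ∧ ((a = 1 ∧ b = 2) ∨ (a = 2 ∧ b = 1)))

/-- adjacency -/
def R (a x b y : ℕ) : Prop := P.Val a x ∧ P.Val b y ∧ ¬ (a = b ∧ x = y) ∧ ¬ P.Conf a x b y

/-- the vertices -/
abbrev Vx : Type := {p : ℕ × ℕ // p.1 < 3 ∧ p.2 < P.X}

theorem Conf_symm {a x b y : ℕ} (h : P.Conf a x b y) : P.Conf b y a x := by
  rcases h with h | ⟨h1, h2, h3, h4⟩ | ⟨h1, h2⟩
  · exact Or.inl (comp_eq_iff.1 h)
  · exact Or.inr (Or.inl ⟨h2, h1, fun e => h3 e.symm, h4.symm⟩)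
  · refine Or.inr (Or.inr ⟨h1.symm, ?_⟩)
    tauto

theorem R_symm {a x b y : ℕ} (h : P.R a x b y) : P.R b y a x :=
  ⟨h.2.1, h.1, fun e => h.2.2.1 ⟨e.1.symm, e.2.symm⟩, fun e => h.2.2.2 (P.Conf_symm e)⟩

/-- the graph -/
def G : SimpleGraph P.Vx where
  Adj x y := P.R x.1.1 x.1.2 y.1.1 y.1.2
  symm := ⟨fun _ _ h => P.R_symm h⟩
  loopless := ⟨fun _ h => h.2.2.1 ⟨rfl, rfl⟩⟩

/-- the set of vertices given by a relation -/
def vset (c : ℕ → ℕ → Prop) : Set P.Vx := {x | c x.1.1 x.1.2}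

variable {P}

theorem Val.lt {a x : ℕ} (h : P.Val a x) : a < 3 ∧ x < P.X := by
  unfold X
  rcases h with ⟨h, h'⟩ | ⟨h | h, h'⟩ <;> omega

theorem Good.oc_lt (h : P.Good) {x : ℕ} (hx : x < 5 * P.m) : P.oc x < 2 * P.N := by
  have hc : x / 5 < P.m := by omega
  have hx' : x = 5 * (x / 5) + x % 5 := by omega
  rcases (by omega : x % 5 < 3 ∨ x % 5 = 3 ∨ x % 5 = 4) with h1 | h1 | h1
  · rw [hx']
    exact (h.h5 _ hc _ h1).1
  · rw [hx', h1, h.h3 _ hc]
    exact comp_lt h.hz
  · rw [hx', h1, h.h4 _ hc]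
    exact comp_lt h.hw

theorem Good.oc_var (h : P.Good) {x y : ℕ} (hx : x < 5 * P.m) (hxy : x / 5 = y / 5)
    (hne : x ≠ y) : P.oc x / 2 ≠ P.oc y / 2 := by
  have hc : x / 5 < P.m := by omega
  have hx' : x = 5 * (x / 5) + x % 5 := by omega
  have hy' : y = 5 * (x / 5) + y % 5 := by omega
  rcases (by omega : x % 5 < 3 ∨ x % 5 = 3 ∨ x % 5 = 4) with h1 | h1 | h1 <;>
  rcases (by omega : y % 5 < 3 ∨ y % 5 = 3 ∨ y % 5 = 4) with h2 | h2 | h2
  · rw [hx', hy']
    exact h.hd _ hc _ h1 _ h2 (by omega)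
  · rw [hx', hy', h2, h.h3 _ hc, comp_div]
    exact (h.h5 _ hc _ h1).2.1
  · rw [hx', hy', h2, h.h4 _ hc, comp_div]
    exact (h.h5 _ hc _ h1).2.2
  · rw [hx', hy', h1, h.h3 _ hc, comp_div]
    exact ((h.h5 _ hc _ h2).2.1).symm
  · omega
  · rw [hx', hy', h1, h2, h.h3 _ hc, h.h4 _ hc, comp_div, comp_div]
    exact h.hzw
  · rw [hx', hy', h1, h.h4 _ hc, comp_div]
    exact ((h.h5 _ hc _ h2).2.2).symm
  · rw [hx', hy', h1, h2, h.h3 _ hc, h.h4 _ hc, comp_div, comp_div]
    exact h.hzw.symm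
  · omega

theorem Good.lt_lz (h : P.Good) {a x : ℕ} (hv : P.Val a x) (he : P.lt a x = P.lz) :
    a = 0 ∧ x = P.lz := by
  unfold NF.lt at he
  by_cases h0 : a = 0
  · rw [if_pos h0] at he
    exact ⟨h0, he⟩
  · exfalso
    rw [if_neg h0] at he
    have hx : x < 5 * P.m := by
      rcases hv with ⟨h1, -⟩ | ⟨-, h1⟩
      · exact absurd h1 h0
      · exact h1
    have hc : x / 5 < P.m := by omega
    have hx' : x = 5 * (x / 5) + x % 5 := by omega
    rcases (by omega : x % 5 < 3 ∨ x % 5 = 3 ∨ x % 5 = 4) with h1 | h1 | h1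
    · have := (h.h5 _ hc _ h1).2.1
      rw [← hx', he] at this
      exact this rfl
    · rw [hx', h1, h.h3 _ hc] at he
      exact comp_ne _ he
    · rw [hx', h1, h.h4 _ hc] at he
      have := congrArg (fun t => t / 2) he
      simp only [comp_div] at this
      exact h.hzw this.symm

theorem Good.lt_lw (h : P.Good) {a x : ℕ} (hv : P.Val a x) (he : P.lt a x = P.lw) :
    a = 0 ∧ x = P.lw := by
  unfold NF.lt at he
  by_cases h0 : a = 0
  · rw [if_pos h0] at he
    exact ⟨h0, he⟩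
  · exfalso
    rw [if_neg h0] at he
    have hx : x < 5 * P.m := by
      rcases hv with ⟨h1, -⟩ | ⟨-, h1⟩
      · exact absurd h1 h0
      · exact h1
    have hc : x / 5 < P.m := by omega
    have hx' : x = 5 * (x / 5) + x % 5 := by omega
    rcases (by omega : x % 5 < 3 ∨ x % 5 = 3 ∨ x % 5 = 4) with h1 | h1 | h1
    · have := (h.h5 _ hc _ h1).2.2
      rw [← hx', he] at this
      exact this rfl
    · rw [hx', h1, h.h3 _ hc] at he
      have := congrArg (fun t => t / 2) he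
      simp only [comp_div] at this
      exact h.hzw this
    · rw [hx', h1, h.h4 _ hc] at he
      exact comp_ne _ he

theorem tr_comp {A : ℕ → Bool} {l : ℕ} (h : tr A l) : ¬ tr A (comp l) := by
  intro h'
  unfold tr at h h'
  rw [comp_div, h] at h'
  unfold comp at h'
  split_ifs at h' with h2
  · rw [decide_eq_decide] at h'
    omega
  · rw [decide_eq_decide] at h'
    omega

theorem tr_comp' {A : ℕ → Bool} {l : ℕ} (h : ¬ tr A l) : tr A (comp l) := by
  unfold tr at h ⊢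
  rw [comp_div]
  unfold comp
  split_ifs with h2
  · rw [decide_eq_true (by omega)]
    rw [decide_eq_false (by omega)] at h
    simpa using h
  · rw [decide_eq_false (by omega)]
    rw [decide_eq_true (by omega)] at h
    simpa using h

/-- the solution given by an assignment and a choice of literals -/
def Sol (P : NF) (A : ℕ → Bool) (sel : ℕ → ℕ) (a x : ℕ) : Prop :=
  (a = 0 ∧ x < 2 * P.N ∧ tr A x) ∨ (a = 1 ∧ x < 5 * P.m ∧ sel (x / 5) = x % 5) ∨
    (a = 2 ∧ x < 5 * P.m ∧ tr A (P.oc x) ∧ sel (x / 5) ≠ x % 5)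

theorem strong_sol (h : P.Good) (A : ℕ → Bool) (sel : ℕ → ℕ)
    (hsel : ∀ c < P.m, sel c < 5 ∧ tr A (P.oc (5 * c + sel c))) :
    IsStrongClique P.G (P.vset (P.Sol A sel)) := by
  have hval : ∀ a x, P.Sol A sel a x → P.Val a x ∧ tr A (P.lt a x) := by
    intro a x hx
    rcases hx with ⟨rfl, h1, h2⟩ | ⟨rfl, h1, h2⟩ | ⟨rfl, h1, h2, h3⟩
    · exact ⟨Or.inl ⟨rfl, h1⟩, h2⟩
    · refine ⟨Or.inr ⟨Or.inl rfl, h1⟩, ?_⟩
      have := (hsel (x / 5) (by omega)).2
      rw [h2, Nat.div_add_mod] at this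
      exact this
    · exact ⟨Or.inr ⟨Or.inr rfl, h1⟩, h2⟩
  constructor
  · rintro ⟨⟨a, x⟩, ha⟩ hx ⟨⟨b, y⟩, hb⟩ hy hne
    have hx' : P.Sol A sel a x := hx
    have hy' : P.Sol A sel b y := hy
    refine ⟨(hval _ _ hx').1, (hval _ _ hy').1, fun e => hne (Subtype.ext (Prod.ext e.1 e.2)), ?_⟩
    simp only
    rintro (h1 | ⟨h1, h2, h3, h4⟩ | ⟨h1, h2⟩)
    · have e1 := (hval _ _ hx').2
      rw [h1] at e1
      exact tr_comp (hval _ _ hy').2 e1
    · subst h1 h2
      rcases hx' with ⟨h5, -⟩ | ⟨-, -, h5⟩ | ⟨h5, -⟩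
      · omega
      · rcases hy' with ⟨h6, -⟩ | ⟨-, -, h6⟩ | ⟨h6, -⟩
        · omega
        · rw [h4, h6] at h5
          omega
        · omega
      · omega
    · subst h1
      rcases h2 with ⟨rfl, rfl⟩ | ⟨rfl, rfl⟩
      · rcases hx' with ⟨h5, -⟩ | ⟨-, -, h5⟩ | ⟨h5, -⟩
        · omega
        · rcases hy' with ⟨h6, -⟩ | ⟨h6, -⟩ | ⟨-, -, -, h6⟩
          · omega
          · omega
          · exact h6 h5
        · omega
      · rcases hy' with ⟨h5, -⟩ | ⟨-, -, h5⟩ | ⟨h5, -⟩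
        · omega
        · rcases hx' with ⟨h6, -⟩ | ⟨h6, -⟩ | ⟨-, -, -, h6⟩
          · omega
          · omega
          · exact h6 h5
        · omega
  · intro S hS
    set S' : ℕ → ℕ → Prop := fun a x => ∃ hh, (⟨(a, x), hh⟩ : P.Vx) ∈ S with hS'
    have hst : ∀ a x b y, S' a x → S' b y → ¬ P.R a x b y := by
      rintro a x b y ⟨ha, hx⟩ ⟨hb, hy⟩ hR
      refine hS.1 hx hy (fun he => hR.2.2.1 ⟨?_, ?_⟩) hR
      · exact congrArg (fun x : P.Vx => x.1.1) he
      · exact congrArg (fun x : P.Vx => x.1.2) he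
    have hmax : ∀ a x, P.Val a x → (∀ b y, S' b y → ¬ P.R a x b y) → S' a x := by
      intro a x hv hno
      refine ⟨hv.lt, ?_⟩
      have h1 : P.G.IsIndepSet (insert (⟨(a, x), hv.lt⟩ : P.Vx) S) := by
        intro p hp q hq hne hadj
        rcases hp with hp | hp <;> rcases hq with hq | hq
        · exact hne (hp.trans hq.symm)
        · subst hp
          exact hno _ _ ⟨q.2, hq⟩ hadj
        · subst hq
          exact hno _ _ ⟨p.2, hp⟩ (P.R_symm hadj)
        · exact hS.1 hp hq hne hadj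
      exact hS.2 h1 (Set.subset_insert _ _) (Set.mem_insert _ _)
    -- distinct vertices of `S` are in conflict
    have hcf : ∀ a x b y, S' a x → S' b y → P.Val a x → P.Val b y → ¬ (a = b ∧ x = y) →
        P.Conf a x b y := by
      intro a x b y h1 h2 h3 h4 h5
      by_contra h6
      exact hst _ _ _ _ h1 h2 ⟨h3, h4, h5, h6⟩
    suffices hgoal : ∃ a x, S' a x ∧ P.Sol A sel a x by
      obtain ⟨a, x, ⟨h1, h2⟩, h3⟩ := hgoal
      exact ⟨_, h3, h2⟩
    by_cases hvar : ∃ a x b y, S' a x ∧ S' b y ∧ P.Val a x ∧ P.Val b y ∧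
        P.lt a x / 2 ≠ P.lt b y / 2
    · obtain ⟨a, x, b, y, h1, h2, h3, h4, h5⟩ := hvar
      have key : ∀ a x b y, S' a x → S' b y → P.Val a x → P.Val b y →
          P.lt a x / 2 ≠ P.lt b y / 2 → a = 1 ∧ b = 1 ∧ x / 5 = y / 5 := by
        intro a x b y h1 h2 h3 h4 h5
        rcases hcf _ _ _ _ h1 h2 h3 h4 (fun e => h5 (by rw [e.1, e.2])) with
          h6 | ⟨h6, h7, -, h8⟩ | ⟨h6, h7⟩
        · rw [h6, comp_div] at h5
          exact absurd rfl h5
        · exact ⟨h6, h7, h8⟩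
        · exfalso
          apply h5
          unfold NF.lt
          rw [h6]
          rcases h7 with ⟨rfl, rfl⟩ | ⟨rfl, rfl⟩ <;> rfl
      obtain ⟨ha, hb, hxy⟩ := key _ _ _ _ h1 h2 h3 h4 h5
      subst ha hb
      have hx : x < 5 * P.m := by
        rcases h3 with ⟨h6, -⟩ | ⟨-, h6⟩
        · omega
        · exact h6
      obtain ⟨g1, g2⟩ := hsel (x / 5) (by omega)
      refine ⟨1, 5 * (x / 5) + sel (x / 5), ?_, Or.inr (Or.inl ⟨rfl, by omega, ?_⟩)⟩
      · refine hmax _ _ (Or.inr ⟨Or.inl rfl, by omega⟩) ?_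
        rintro c t hc ⟨-, hv, hne, hnc⟩
        have e1 : c = 1 ∧ t / 5 = x / 5 := by
          by_cases h6 : P.lt c t / 2 = P.lt 1 x / 2
          · obtain ⟨h7, -, h8⟩ := key _ _ _ _ hc h2 hv h4 (by rw [h6]; exact h5)
            exact ⟨h7, by omega⟩
          · obtain ⟨h7, -, h8⟩ := key _ _ _ _ hc h1 hv h3 h6
            exact ⟨h7, h8⟩
        obtain ⟨rfl, e2⟩ := e1
        exact hnc (Or.inr (Or.inl ⟨rfl, rfl, fun e => hne ⟨rfl, e⟩, by omega⟩))
      · rw [show (5 * (x / 5) + sel (x / 5)) / 5 = x / 5 by omega]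
        omega
    · push Not at hvar
      obtain ⟨a0, x0, h1, h2⟩ : ∃ a x, S' a x ∧ P.Val a x := by
        by_contra hno
        push Not at hno
        have hz : P.Val 0 P.lz := Or.inl ⟨rfl, h.hz⟩
        refine hno 0 P.lz (hmax _ _ hz fun b y hb hR => ?_) hz
        exact hno b y hb hR.2.1
      have hlt2 : ∀ a x, P.Val a x → P.lt a x < 2 * P.N := by
        intro a x hv
        rcases hv with ⟨rfl, h3⟩ | ⟨h3, h4⟩
        · exact h3
        · have : P.lt a x = P.oc x := if_neg (by omega)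
          rw [this]
          exact h.oc_lt h4
      -- the true literal of the variable
      obtain ⟨l, hl, hlv, hlt⟩ : ∃ l < 2 * P.N, l / 2 = P.lt a0 x0 / 2 ∧ tr A l := by
        by_cases h3 : tr A (P.lt a0 x0)
        · exact ⟨_, hlt2 _ _ h2, rfl, h3⟩
        · exact ⟨_, comp_lt (hlt2 _ _ h2), comp_div _, tr_comp' h3⟩
      by_cases hL : S' 0 l
      · exact ⟨0, l, hL, Or.inl ⟨rfl, hl, hlt⟩⟩
      · have h3 : ∃ b y, S' b y ∧ P.R 0 l b y := by
          by_contra hc
          push Not at hc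
          exact hL (hmax _ _ (Or.inl ⟨rfl, hl⟩) hc)
        obtain ⟨b, y, hb, -, hv, hne, hnc⟩ := h3
        have h4 : P.lt b y = l := by
          have h5 := hvar _ _ _ _ hb h1 hv h2
          rcases eq_or_comp (h5.trans hlv.symm) with h6 | h6
          · exact h6
          · exfalso
            exact hnc (Or.inl (comp_eq_iff.1 h6))
        have hb0 : b ≠ 0 := by
          intro h5
          subst h5
          exact hne ⟨rfl, h4.symm⟩
        obtain ⟨hb12, hy⟩ : (b = 1 ∨ b = 2) ∧ y < 5 * P.m := by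
          rcases hv with ⟨h5, -⟩ | h5
          · exact absurd h5 hb0
          · exact h5
        have h5 : P.oc y = l := by
          rw [← h4]
          exact (if_neg hb0).symm
        have hv1 : P.Val 1 y := Or.inr ⟨Or.inl rfl, hy⟩
        have hv2 : P.Val 2 y := Or.inr ⟨Or.inr rfl, hy⟩
        have hs1 : S' 1 y := by
          rcases hb12 with rfl | rfl
          · exact hb
          · refine hmax _ _ hv1 ?_
            rintro c t hc ⟨-, hvc, hne', hnc'⟩
            by_cases h6 : c = 2 ∧ t = y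
            · exact hnc' (Or.inr (Or.inr ⟨h6.2.symm, Or.inl ⟨rfl, h6.1⟩⟩))
            · rcases hcf _ _ _ _ hc hb hvc hv h6 with h7 | ⟨h7, h8, -⟩ | ⟨h7, h8⟩
              · exact hnc' (Or.inl (comp_eq_iff.1 h7))
              · omega
              · rcases h8 with ⟨h8, -⟩ | ⟨-, h8⟩
                · exact hne' ⟨h8.symm, h7.symm⟩
                · omega
        have hs2 : S' 2 y := by
          refine hmax _ _ hv2 ?_
          rintro c t hc ⟨-, hvc, hne', hnc'⟩
          by_cases h6 : c = 1 ∧ t = y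
          · exact hnc' (Or.inr (Or.inr ⟨h6.2.symm, Or.inr ⟨rfl, h6.1⟩⟩))
          · rcases hcf _ _ _ _ hc hs1 hvc hv1 h6 with h7 | ⟨h7, h8, h9, h10⟩ | ⟨h7, h8⟩
            · exact hnc' (Or.inl (comp_eq_iff.1 h7))
            · subst h7
              have ht : t < 5 * P.m := by
                rcases hvc with ⟨h11, -⟩ | ⟨-, h11⟩
                · omega
                · exact h11
              exact h.oc_var ht h10 h9 (hvar _ _ _ _ hc hs1 hvc hv1)
            · rcases h8 with ⟨-, h8⟩ | ⟨h8, -⟩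
              · omega
              · exact hne' ⟨h8.symm, h7.symm⟩
        by_cases h6 : sel (y / 5) = y % 5
        · exact ⟨1, y, hs1, Or.inr (Or.inl ⟨rfl, hy, h6⟩)⟩
        · exact ⟨2, y, hs2, Or.inr (Or.inr ⟨rfl, hy, by rw [h5]; exact hlt, h6⟩)⟩

/-- A consistent set of literals can be made true. -/
theorem exists_assignment (Q : ℕ → Prop) (hQ : ∀ l, Q l → ¬ Q (comp l)) :
    ∃ A : ℕ → Bool, ∀ l, Q l → tr A l := by
  classical
  refine ⟨fun v => decide (Q (2 * v + 1)), fun l hl => ?_⟩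
  unfold tr
  by_cases h : l % 2 = 1
  · rw [decide_eq_true h, decide_eq_true_eq, show 2 * (l / 2) + 1 = l by omega]
    exact hl
  · rw [decide_eq_false h, decide_eq_false_iff_not]
    intro h'
    apply hQ l hl
    have : comp l = 2 * (l / 2) + 1 := by unfold comp; rw [if_pos (by omega)]; omega
    rw [this]
    exact h'

/-- A solution through two vertices. -/
theorem exists_strong (h : P.Good) (Q : ℕ → Prop) (hQ : ∀ l, Q l → ¬ Q (comp l)) (sel : ℕ → ℕ)
    (hsel : ∀ c < P.m, sel c < 5 ∧ Q (P.oc (5 * c + sel c))) {a x b y : ℕ}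
    (hx : P.Val a x) (hx0 : Q (P.lt a x)) (hx1 : a = 1 → sel (x / 5) = x % 5)
    (hx2 : a = 2 → sel (x / 5) ≠ x % 5)
    (hy : P.Val b y) (hy0 : Q (P.lt b y)) (hy1 : b = 1 → sel (y / 5) = y % 5)
    (hy2 : b = 2 → sel (y / 5) ≠ y % 5) :
    ∃ c : ℕ → ℕ → Prop, c a x ∧ c b y ∧ IsStrongClique P.G (P.vset c) := by
  obtain ⟨A, hA⟩ := exists_assignment Q hQ
  refine ⟨_, ?_, ?_, strong_sol h A sel fun c hc => ⟨(hsel c hc).1, hA _ (hsel c hc).2⟩⟩
  · rcases hx with ⟨rfl, h1⟩ | ⟨rfl | rfl, h1⟩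
    · exact Or.inl ⟨rfl, h1, hA _ hx0⟩
    · exact Or.inr (Or.inl ⟨rfl, h1, hx1 rfl⟩)
    · exact Or.inr (Or.inr ⟨rfl, h1, hA _ hx0, hx2 rfl⟩)
  · rcases hy with ⟨rfl, h1⟩ | ⟨rfl | rfl, h1⟩
    · exact Or.inl ⟨rfl, h1, hA _ hy0⟩
    · exact Or.inr (Or.inl ⟨rfl, h1, hy1 rfl⟩)
    · exact Or.inr (Or.inr ⟨rfl, h1, hA _ hy0, hy2 rfl⟩)

end NF

end Pool.Agent.helper506_es
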