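import Pool.Agent.helper506_es.NPH

/-!
# Every edge is contained in a strong clique if and only if the formula is satisfiable
-/

set_option autoImplicit false

namespace Pool.Agent.helper506_es

namespace NF

open CF (tr)

variable {P : NF}

/-- The edge from `z` to `w` gives a satisfying assignment. -/
theorem sat_of_everyEdgeStrong (h : P.Good) (hE : EveryEdgeStrong P.G) : P.Sat := by
  have hvz : P.Val 0 P.lz := Or.inl ⟨rfl, h.hz⟩
  have hvw : P.Val 0 P.lw := Or.inl ⟨rfl, h.hw⟩
  have hadj : P.R 0 P.lz 0 P.lw := by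
    refine ⟨hvz, hvw, ?_, ?_⟩
    · rintro ⟨-, h1⟩
      exact h.hzw (by rw [h1])
    · rintro (h1 | ⟨h1, -⟩ | ⟨-, ⟨h1, -⟩ | ⟨h1, -⟩⟩)
      · have := congrArg (fun t => t / 2) h1
        simp only [comp_div] at this
        exact h.hzw this
      · omega
      · omega
      · omega
  obtain ⟨C, hz, hw, hC, hC'⟩ := hE ⟨(0, P.lz), hvz.lt⟩ ⟨(0, P.lw), hvw.lt⟩ hadj
  -- for every clause, a literal is chosen
  have key : ∀ c < P.m, ∃ r < 3, ∃ hh, (⟨(1, 5 * c + r), hh⟩ : P.Vx) ∈ C := by
    intro c hc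
    have hval : ∀ r < 5, P.Val 1 (5 * c + r) := fun r hr => Or.inr ⟨Or.inl rfl, by omega⟩
    obtain ⟨v, hvC, hvS⟩ := hC' {v | (v.1.1 = 1 ∧ v.1.2 / 5 = c) ∨ ¬ P.Val v.1.1 v.1.2} (by
      constructor
      · intro p hp q hq hne hadj
        rcases hp with ⟨hp1, hp2⟩ | hp
        · rcases hq with ⟨hq1, hq2⟩ | hq
          · refine hadj.2.2.2 (Or.inr (Or.inl ⟨hp1, hq1, ?_, by rw [hp2, hq2]⟩))
            intro he
            exact hne (Subtype.ext (Prod.ext (hp1.trans hq1.symm) he))
          · exact hq hadj.2.1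
        · exact hp hadj.1
      · intro T hT hle v hv
        by_contra hno
        have hno' : ¬ ((v.1.1 = 1 ∧ v.1.2 / 5 = c) ∨ ¬ P.Val v.1.1 v.1.2) := hno
        push Not at hno'
        obtain ⟨hno1, hno2⟩ := hno'
        have hcf : ∀ r < 5, P.lt v.1.1 v.1.2 = comp (P.oc (5 * c + r)) ∨
            (v.1.1 = 2 ∧ v.1.2 = 5 * c + r) := by
          intro r hr
          have hT2 : (⟨(1, 5 * c + r), (hval r hr).lt⟩ : P.Vx) ∈ T :=
            hle (Or.inl ⟨rfl, by simp only; omega⟩)
          have hne : v ≠ ⟨(1, 5 * c + r), (hval r hr).lt⟩ := by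
            intro he
            apply hno1
            · rw [he]
            · rw [he]
              simp only
              omega
          have h1 : ¬ P.R v.1.1 v.1.2 1 (5 * c + r) := hT hv hT2 hne
          by_contra hcon
          push Not at hcon
          refine h1 ⟨hno2, hval r hr, ?_, ?_⟩
          · rintro ⟨h2, h3⟩
            exact hno1 h2 (by omega)
          · rintro (h2 | ⟨h2, -, -, h3⟩ | ⟨h2, ⟨-, h3⟩ | ⟨h3, -⟩⟩)
            · exact hcon.1 h2
            · exact hno1 h2 (by omega)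
            · omega
            · exact hcon.2 h3 h2
        have hvr : ∀ r < 5, ∀ s < 5, r ≠ s →
            P.oc (5 * c + r) / 2 ≠ P.oc (5 * c + s) / 2 := by
          intro r hr s hs hrs
          exact h.oc_var (by omega) (by omega) (by omega)
        have hvar : ∀ r < 5, ∀ s < 5, r ≠ s → P.lt v.1.1 v.1.2 = comp (P.oc (5 * c + r)) →
            P.lt v.1.1 v.1.2 = comp (P.oc (5 * c + s)) → False := by
          intro r hr s hs hrs e1 e2
          have := congrArg (fun t => t / 2) (e1.symm.trans e2)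
          simp only [comp_div] at this
          exact hvr r hr s hs hrs this
        rcases hcf 0 (by omega) with e0 | e0
        · rcases hcf 1 (by omega) with e1 | e1
          · exact hvar 0 (by omega) 1 (by omega) (by omega) e0 e1
          · rcases hcf 2 (by omega) with e2 | e2
            · exact hvar 0 (by omega) 2 (by omega) (by omega) e0 e2
            · omega
        · rcases hcf 1 (by omega) with e1 | e1
          · rcases hcf 2 (by omega) with e2 | e2
            · exact hvar 1 (by omega) 2 (by omega) (by omega) e1 e2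
            · omega
          · omega)
    have hv1 : P.Val v.1.1 v.1.2 := by
      by_contra hno
      have hne : v ≠ ⟨(0, P.lz), hvz.lt⟩ := by
        intro he
        rw [he] at hno
        exact hno hvz
      have h1 : P.R v.1.1 v.1.2 0 P.lz := hC hvC hz hne
      exact hno h1.1
    rcases hvS with ⟨hv2, hv3⟩ | hv2
    · have hnz : v ≠ ⟨(0, P.lz), hvz.lt⟩ := by
        intro he
        rw [he] at hv2
        simp only at hv2
        omega
      have hnw : v ≠ ⟨(0, P.lw), hvw.lt⟩ := by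
        intro he
        rw [he] at hv2
        simp only at hv2
        omega
      have h1 : P.R v.1.1 v.1.2 0 P.lz := hC hvC hz hnz
      have h2 : P.R v.1.1 v.1.2 0 P.lw := hC hvC hw hnw
      obtain ⟨⟨a, x⟩, hax⟩ := v
      simp only at hv2 hv3 h1 h2 hv1
      subst hv2
      have hx : x < 5 * P.m := by omega
      have h3 : ¬ P.oc x = comp P.lz := fun e => h1.2.2.2 (Or.inl e)
      have h4 : ¬ P.oc x = comp P.lw := fun e => h2.2.2.2 (Or.inl e)
      have hr : x % 5 < 3 := by
        by_contra hge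
        rcases (by omega : x % 5 = 3 ∨ x % 5 = 4) with h5 | h5
        · apply h3
          rw [← h.h3 c hc]
          congr 1
          omega
        · apply h4
          rw [← h.h4 c hc]
          congr 1
          omega
      have hx' : x = 5 * c + x % 5 := by omega
      exact ⟨x % 5, hr, by rw [← hx']; exact hax, by simp only [← hx']; exact hvC⟩
    · exact absurd hv1 hv2
  obtain ⟨A, hA⟩ := exists_assignment
    (fun l => ∃ y, P.Val 1 y ∧ (∃ hh, (⟨(1, y), hh⟩ : P.Vx) ∈ C) ∧ P.oc y = l) (by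
      rintro l ⟨y, hy, ⟨hh, hyC⟩, hyl⟩ ⟨y', hy', ⟨hh', hyC'⟩, hyl'⟩
      have hne : (⟨(1, y), hh⟩ : P.Vx) ≠ ⟨(1, y'), hh'⟩ := by
        intro he
        have h1 : y = y' := congrArg (fun x : P.Vx => x.1.2) he
        rw [h1, hyl'] at hyl
        exact comp_ne _ hyl
      have h1 : P.R 1 y 1 y' := hC hyC hyC' hne
      apply h1.2.2.2
      left
      change P.oc y = comp (P.oc y')
      rw [hyl, hyl', comp_comp])
  refine ⟨A, fun c hc => ?_⟩
  obtain ⟨r, hr, hh, hm⟩ := key c hc
  exact ⟨r, hr, hA _ ⟨5 * c + r, Or.inr ⟨Or.inl rfl, by omega⟩, ⟨hh, hm⟩, rfl⟩⟩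

/-- the edge from `z` to `w` -/
theorem strong_special (h : P.Good) (hs : P.Sat) :
    ∃ c : ℕ → ℕ → Prop, c 0 P.lz ∧ c 0 P.lw ∧ IsStrongClique P.G (P.vset c) := by
  classical
  obtain ⟨A, hA⟩ := hs
  choose! s hs3 hsA using hA
  let A' : ℕ → Bool := fun v => if v = P.lz / 2 then decide (P.lz % 2 = 1) else
    if v = P.lw / 2 then decide (P.lw % 2 = 1) else A v
  refine exists_strong h (fun l => tr A' l) (fun l hl => tr_comp hl) s ?_
    (Or.inl ⟨rfl, h.hz⟩) ?_ (by omega) (by omega) (Or.inl ⟨rfl, h.hw⟩) ?_ (by omega) (by omega)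
  · intro c hc
    have h1 := hs3 c hc
    have h2 := hsA c hc
    obtain ⟨-, h3, h4⟩ := h.h5 c hc _ h1
    refine ⟨by omega, ?_⟩
    unfold tr at h2 ⊢
    simp only [A']
    rw [if_neg h3, if_neg h4]
    exact h2
  · change tr A' P.lz
    unfold tr
    simp only [A']
    rw [if_pos trivial]
  · change tr A' P.lw
    unfold tr
    simp only [A']
    rw [if_neg h.hzw.symm, if_pos trivial]

/-- Literals which are not in conflict with two given compatible literals. -/
theorem consistent (h : P.Good) {p q : ℕ} (hpq : p ≠ comp q) {zt wt : Prop}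
    (hz : zt → p ≠ P.lz ∧ q ≠ P.lz) (hw : wt → p ≠ P.lw ∧ q ≠ P.lw) (l : ℕ)
    (h1 : l = p ∨ l = q ∨ (zt ∧ l = comp P.lz) ∨ (wt ∧ l = comp P.lw))
    (h2 : comp l = p ∨ comp l = q ∨ (zt ∧ comp l = comp P.lz) ∨ (wt ∧ comp l = comp P.lw)) :
    False := by
  have hcz : ∀ t, comp t = comp P.lz → t = P.lz := fun t ht => by
    rw [← comp_comp t, ht, comp_comp]
  have hcw : ∀ t, comp t = comp P.lw → t = P.lw := fun t ht => by
    rw [← comp_comp t, ht, comp_comp]
  rcases h1 with rfl | rfl | ⟨h1, rfl⟩ | ⟨h1, rfl⟩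
  · rcases h2 with h2 | h2 | ⟨h2, h3⟩ | ⟨h2, h3⟩
    · exact comp_ne _ h2
    · exact hpq (comp_eq_iff.1 h2.symm)
    · exact (hz h2).1 (hcz _ h3)
    · exact (hw h2).1 (hcw _ h3)
  · rcases h2 with h2 | h2 | ⟨h2, h3⟩ | ⟨h2, h3⟩
    · exact hpq h2.symm
    · exact comp_ne _ h2
    · exact (hz h2).2 (hcz _ h3)
    · exact (hw h2).2 (hcw _ h3)
  · rw [comp_comp] at h2
    rcases h2 with h2 | h2 | ⟨h2, h3⟩ | ⟨h2, h3⟩
    · exact (hz h1).1 h2.symm
    · exact (hz h1).2 h2.symm
    · exact comp_ne _ h3.symm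
    · have := congrArg (fun t => t / 2) h3
      simp only [comp_div] at this
      exact h.hzw this
  · rw [comp_comp] at h2
    rcases h2 with h2 | h2 | ⟨h2, h3⟩ | ⟨h2, h3⟩
    · exact (hw h1).1 h2.symm
    · exact (hw h1).2 h2.symm
    · have := congrArg (fun t => t / 2) h3
      simp only [comp_div] at this
      exact h.hzw this.symm
    · exact comp_ne _ h3.symm

/-- edges different from the one from `z` to `w` -/
theorem strong_other (h : P.Good) {a x b y : ℕ} (hR : P.R a x b y)
    (hsp : ¬ ((P.lt a x = P.lz ∨ P.lt b y = P.lz) ∧ (P.lt a x = P.lw ∨ P.lt b y = P.lw))) :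
    ∃ c : ℕ → ℕ → Prop, c a x ∧ c b y ∧ IsStrongClique P.G (P.vset c) := by
  classical
  obtain ⟨hvx, hvy, hne, hnc⟩ := hR
  have hpq : P.lt a x ≠ comp (P.lt b y) := fun e => hnc (Or.inl e)
  have hlev : a = 1 → b = 1 → x / 5 ≠ y / 5 := fun e1 e2 e3 =>
    hnc (Or.inr (Or.inl ⟨e1, e2, fun e4 => hne ⟨e1.trans e2.symm, e4⟩, e3⟩))
  have h12 : a = 1 → b = 2 → x ≠ y := fun e1 e2 e3 =>
    hnc (Or.inr (Or.inr ⟨e3, Or.inl ⟨e1, e2⟩⟩))
  have h21 : a = 2 → b = 1 → x ≠ y := fun e1 e2 e3 =>
    hnc (Or.inr (Or.inr ⟨e3, Or.inr ⟨e1, e2⟩⟩))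
  have hxm : a = 1 ∨ a = 2 → x < 5 * P.m := by
    intro h1
    rcases hvx with ⟨h2, -⟩ | ⟨-, h2⟩
    · omega
    · exact h2
  have hym : b = 1 ∨ b = 2 → y < 5 * P.m := by
    intro h1
    rcases hvy with ⟨h2, -⟩ | ⟨-, h2⟩
    · omega
    · exact h2
  have hltx : a = 1 ∨ a = 2 → P.lt a x = P.oc x := fun h1 => if_neg (by omega)
  have hlty : b = 1 ∨ b = 2 → P.lt b y = P.oc y := fun h1 => if_neg (by omega)
  set zt : Prop := P.lt a x ≠ P.lz ∧ P.lt b y ≠ P.lz with hzt
  set wt : Prop := P.lt a x ≠ P.lw ∧ P.lt b y ≠ P.lw with hwt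
  have hzw' : zt ∨ wt := by
    by_contra hcon
    rw [not_or] at hcon
    obtain ⟨c1, c2⟩ := hcon
    apply hsp
    constructor
    · by_contra c3
      exact c1 ⟨fun e => c3 (Or.inl e), fun e => c3 (Or.inr e)⟩
    · by_contra c3
      exact c2 ⟨fun e => c3 (Or.inl e), fun e => c3 (Or.inr e)⟩
  set excl : ℕ → ℕ → Prop := fun c r => (a = 2 ∧ x = 5 * c + r) ∨ (b = 2 ∧ y = 5 * c + r)
    with hexcl
  set need : ℕ → Prop := fun c => (zt → excl c 3) ∧ (wt → excl c 4) with hneed
  by_cases hN : ∃ c < P.m, need c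
  · obtain ⟨c0, hc0, hn1, hn2⟩ := hN
    have hoc0 := h.h5 c0 hc0 0 (by omega)
    rw [Nat.add_zero] at hoc0
    -- the two vertices belong to `z`, `w` or are the places of `z` and `w` in the clause
    have hT : (P.lt a x / 2 = P.lz / 2 ∨ P.lt a x / 2 = P.lw / 2) ∧
        (P.lt b y / 2 = P.lz / 2 ∨ P.lt b y / 2 = P.lw / 2) ∧
        (a = 0 ∨ (a = 2 ∧ (x = 5 * c0 + 3 ∨ x = 5 * c0 + 4))) ∧
        (b = 0 ∨ (b = 2 ∧ (y = 5 * c0 + 3 ∨ y = 5 * c0 + 4))) := by
      have v3 : ∀ a x, a = 2 → x = 5 * c0 + 3 → P.lt a x = comp P.lz := by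
        rintro a x rfl rfl
        exact h.h3 c0 hc0
      have v4 : ∀ a x, a = 2 → x = 5 * c0 + 4 → P.lt a x = comp P.lw := by
        rintro a x rfl rfl
        exact h.h4 c0 hc0
      have d1 : comp P.lz / 2 = P.lz / 2 := comp_div _
      have d2 : comp P.lw / 2 = P.lw / 2 := comp_div _
      by_cases hz : zt
      · rcases hn1 hz with ⟨e1, e2⟩ | ⟨e1, e2⟩
        · have e3 := v3 _ _ e1 e2
          by_cases hw : wt
          · rcases hn2 hw with ⟨e4, e5⟩ | ⟨e4, e5⟩
            · omega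
            · have e6 := v4 _ _ e4 e5
              rw [e3, e6, d1, d2]
              exact ⟨Or.inl rfl, Or.inr rfl, Or.inr ⟨e1, Or.inl e2⟩, Or.inr ⟨e4, Or.inr e5⟩⟩
          · have e4 : P.lt b y = P.lw := by
              by_contra hcon
              refine hw ⟨fun e5 => ?_, hcon⟩
              rw [e3] at e5
              have := congrArg (fun t => t / 2) e5
              simp only [comp_div] at this
              exact h.hzw this
            have e5 := h.lt_lw hvy e4
            rw [e3, e4, d1]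
            exact ⟨Or.inl rfl, Or.inr rfl, Or.inr ⟨e1, Or.inl e2⟩, Or.inl e5.1⟩
        · have e3 := v3 _ _ e1 e2
          by_cases hw : wt
          · rcases hn2 hw with ⟨e4, e5⟩ | ⟨e4, e5⟩
            · have e6 := v4 _ _ e4 e5
              rw [e3, e6, d1, d2]
              exact ⟨Or.inr rfl, Or.inl rfl, Or.inr ⟨e4, Or.inr e5⟩, Or.inr ⟨e1, Or.inl e2⟩⟩
            · omega
          · have e4 : P.lt a x = P.lw := by
              by_contra hcon
              refine hw ⟨hcon, fun e5 => ?_⟩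
              rw [e3] at e5
              have := congrArg (fun t => t / 2) e5
              simp only [comp_div] at this
              exact h.hzw this
            have e5 := h.lt_lw hvx e4
            rw [e3, e4, d1]
            exact ⟨Or.inr rfl, Or.inl rfl, Or.inl e5.1, Or.inr ⟨e1, Or.inl e2⟩⟩
      · have hw : wt := hzw'.resolve_left hz
        rcases hn2 hw with ⟨e1, e2⟩ | ⟨e1, e2⟩
        · have e3 := v4 _ _ e1 e2
          have e4 : P.lt b y = P.lz := by
            by_contra hcon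
            refine hz ⟨fun e5 => ?_, hcon⟩
            rw [e3] at e5
            have := congrArg (fun t => t / 2) e5
            simp only [comp_div] at this
            exact h.hzw this.symm
          have e5 := h.lt_lz hvy e4
          rw [e3, e4, d2]
          exact ⟨Or.inr rfl, Or.inl rfl, Or.inr ⟨e1, Or.inr e2⟩, Or.inl e5.1⟩
        · have e3 := v4 _ _ e1 e2
          have e4 : P.lt a x = P.lz := by
            by_contra hcon
            refine hz ⟨hcon, fun e5 => ?_⟩
            rw [e3] at e5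
            have := congrArg (fun t => t / 2) e5
            simp only [comp_div] at this
            exact h.hzw this.symm
          have e5 := h.lt_lz hvx e4
          rw [e3, e4, d2]
          exact ⟨Or.inl rfl, Or.inr rfl, Or.inl e5.1, Or.inr ⟨e1, Or.inr e2⟩⟩
    obtain ⟨t1, t2, t3, t4⟩ := hT
    refine exists_strong h (fun l => (l = P.lt a x ∨ l = P.lt b y ∨ (zt ∧ l = comp P.lz) ∨
      (wt ∧ l = comp P.lw)) ∨ l = P.oc (5 * c0)) ?_
      (fun c => if c = c0 then 0 else if zt then 3 else 4) ?_ hvx (Or.inl (Or.inl rfl)) ?_ ?_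
      hvy (Or.inl (Or.inr (Or.inl rfl))) ?_ ?_
    · have hv : ∀ l, (l = P.lt a x ∨ l = P.lt b y ∨ (zt ∧ l = comp P.lz) ∨
          (wt ∧ l = comp P.lw)) → l / 2 = P.lz / 2 ∨ l / 2 = P.lw / 2 := by
        rintro l (rfl | rfl | ⟨-, rfl⟩ | ⟨-, rfl⟩)
        · exact t1
        · exact t2
        · exact Or.inl (comp_div _)
        · exact Or.inr (comp_div _)
      rintro l (h1 | rfl) (h2 | h2)
      · exact consistent h hpq (fun e => e) (fun e => e) l h1 h2
      · have h3 := hv l h1
        have h4 : l / 2 = P.oc (5 * c0) / 2 := by rw [← h2, comp_div]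
        rw [h4] at h3
        exact h3.elim hoc0.2.1 hoc0.2.2
      · have h3 := hv _ h2
        rw [comp_div] at h3
        exact h3.elim hoc0.2.1 hoc0.2.2
      · exact comp_ne _ h2
    · intro c hc
      try simp only
      split_ifs with h1 h2
      · subst h1
        exact ⟨by omega, Or.inr rfl⟩
      · exact ⟨by omega, Or.inl (Or.inr (Or.inr (Or.inl ⟨h2, h.h3 c hc⟩)))⟩
      · exact ⟨by omega, Or.inl (Or.inr (Or.inr (Or.inr ⟨hzw'.resolve_left h2, h.h4 c hc⟩)))⟩
    · intro e
      omega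
    · intro e
      try simp only
      rw [if_pos (by omega)]
      omega
    · intro e
      omega
    · intro e
      try simp only
      rw [if_pos (by omega)]
      omega
  · have hN' : ∀ c < P.m, (zt ∧ ¬ excl c 3) ∨ (wt ∧ ¬ excl c 4) := by
      intro c hc
      by_contra hcon
      apply hN
      refine ⟨c, hc, fun hz => ?_, fun hw => ?_⟩
      · by_contra h1
        exact hcon (Or.inl ⟨hz, h1⟩)
      · by_contra h1
        exact hcon (Or.inr ⟨hw, h1⟩)
    refine exists_strong h (fun l => l = P.lt a x ∨ l = P.lt b y ∨ (zt ∧ l = comp P.lz) ∨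
      (wt ∧ l = comp P.lw)) ?_
      (fun c => if a = 1 ∧ x / 5 = c then x % 5 else if b = 1 ∧ y / 5 = c then y % 5 else
        if zt ∧ ¬ excl c 3 then 3 else 4) ?_ hvx (Or.inl rfl) ?_ ?_
      hvy (Or.inr (Or.inl rfl)) ?_ ?_
    · intro l h1 h2
      exact consistent h hpq (fun e => e) (fun e => e) l h1 h2
    · intro c hc
      try simp only
      split_ifs with h1 h2 h3
      · refine ⟨by omega, Or.inl ?_⟩
        rw [hltx (Or.inl h1.1)]
        congr 1
        omega
      · refine ⟨by omega, Or.inr (Or.inl ?_)⟩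
        rw [hlty (Or.inl h2.1)]
        congr 1
        omega
      · exact ⟨by omega, Or.inr (Or.inr (Or.inl ⟨h3.1, h.h3 c hc⟩))⟩
      · exact ⟨by omega, Or.inr (Or.inr (Or.inr
          ⟨((hN' c hc).resolve_left h3).1, h.h4 c hc⟩))⟩
    · intro e
      simp only
      rw [if_pos ⟨e, trivial⟩]
    · intro e
      have hx5 : x / 5 < P.m := by
        have := hxm (Or.inr e)
        omega
      simp only
      split_ifs with h1 h2 h3
      · omega
      · intro h4
        have := h21 e h2.1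
        omega
      · intro h4
        exact h3.2 (Or.inl ⟨e, by omega⟩)
      · intro h4
        exact ((hN' _ hx5).resolve_left h3).2 (Or.inl ⟨e, by omega⟩)
    · intro e
      by_cases h1 : a = 1 ∧ x / 5 = y / 5
      · exact absurd h1.2 (hlev h1.1 e)
      · simp only
        rw [if_neg h1, if_pos ⟨e, trivial⟩]
    · intro e
      have hy5 : y / 5 < P.m := by
        have := hym (Or.inr e)
        omega
      simp only
      split_ifs with h1 h2 h3
      · intro h4
        have := h12 h1.1 e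
        omega
      · omega
      · intro h4
        exact h3.2 (Or.inr ⟨e, by omega⟩)
      · intro h4
        exact ((hN' _ hy5).resolve_left h3).2 (Or.inr ⟨e, by omega⟩)

/-- **Correctness.** -/
theorem everyEdgeStrong_iff (h : P.Good) : EveryEdgeStrong P.G ↔ P.Sat := by
  refine ⟨sat_of_everyEdgeStrong h, fun hs => ?_⟩
  rintro ⟨⟨a, x⟩, hx⟩ ⟨⟨b, y⟩, hy⟩ hR
  have hR' : P.R a x b y := hR
  have fin : (∃ c : ℕ → ℕ → Prop, c a x ∧ c b y ∧ IsStrongClique P.G (P.vset c)) →
      ∃ C : Set P.Vx, (⟨(a, x), hx⟩ : P.Vx) ∈ C ∧ (⟨(b, y), hy⟩ : P.Vx) ∈ C ∧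
        IsStrongClique P.G C := by
    rintro ⟨c, h1, h2, h3⟩
    exact ⟨_, h1, h2, h3⟩
  apply fin
  by_cases hsp : ((P.lt a x = P.lz ∨ P.lt b y = P.lz) ∧ (P.lt a x = P.lw ∨ P.lt b y = P.lw))
  · obtain ⟨c, h1, h2, h3⟩ := strong_special h hs
    have hzw : P.lz ≠ P.lw := fun e => h.hzw (by rw [e])
    rcases hsp with ⟨e1 | e1, e2 | e2⟩
    · exact absurd (e1.symm.trans e2) hzw
    · obtain ⟨rfl, rfl⟩ := h.lt_lz hR'.1 e1
      obtain ⟨rfl, rfl⟩ := h.lt_lw hR'.2.1 e2
      exact ⟨c, h1, h2, h3⟩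
    · obtain ⟨rfl, rfl⟩ := h.lt_lz hR'.2.1 e1
      obtain ⟨rfl, rfl⟩ := h.lt_lw hR'.1 e2
      exact ⟨c, h2, h1, h3⟩
    · exact absurd (e1.symm.trans e2) hzw
  · exact strong_other h hR' hsp

end NF

end Pool.Agent.helper506_es
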