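import Pool.Agent.helper506_es.Enc

/-!
# The reductions are computable in polynomial time
-/

set_option autoImplicit false

namespace Pool.Agent.helper506_es

open Pool.Agent.NPC
open Pool.Agent.helper506_sr (Cl litOf poly_litOf)

section

variable {α : Type} [TEnc α] {φ : α → List Cl} {a x b y i j : α → ℕ}

theorem poly_lists {N : α → ℕ} {adj : α → ℕ → ℕ → Bool} (hN : UPoly N)
    (h : Poly (fun t : (α × ℕ) × ℕ => adj t.1.1 t.1.2 t.2)) :
    Poly (fun a => lists (N a) (adj a)) := by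
  refine NPC.Poly.map (F := fun a u => (List.range (N a)).filter (adj a u)) hN.range ?_
  exact NPC.Poly.filter (p := fun (t : α × ℕ) v => adj t.1 t.2 v)
    ((hN.comp (NPC.Poly.fst NPC.Poly.id)).range) h

theorem poly_comp (hx : Poly x) : Poly (fun t => comp (x t)) :=
  NPC.Poly.ite (p := fun t => x t % 2 = 0)
    (NPC.Poly.decide_eq (NPC.Poly.mod hx (NPC.Poly.const 2)) (NPC.Poly.const 0))
    (NPC.Poly.add hx (NPC.Poly.const 1)) (NPC.Poly.sub hx (NPC.Poly.const 1))

theorem poly_code {l : α → Lit ℕ} (hl : Poly l) : Poly (fun t => code (l t)) :=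
  NPC.Poly.add (NPC.Poly.mul (NPC.Poly.const 2) (NPC.Poly.snd hl))
    (NPC.Poly.ite (p := fun t => (l t).1 = true) (NPC.Poly.decide_bool (NPC.Poly.fst hl))
      (NPC.Poly.const 1) (NPC.Poly.const 0))

theorem upoly_lin (hφ : Poly φ) (p q : ℕ) : UPoly (fun t => p * (φ t).length + q) :=
  UPoly.add (UPoly.mul (UPoly.const p) (UPoly.length hφ)) (UPoly.const q)

theorem poly_ocN (hφ : Poly φ) (hx : Poly x) : Poly (fun t => ocN (φ t) (x t)) := by
  have h5 : Poly (fun t => x t % 5) := NPC.Poly.mod hx (NPC.Poly.const 5)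
  exact NPC.Poly.ite (p := fun t => x t % 5 < 3) (NPC.Poly.decide_lt h5 (NPC.Poly.const 3))
    (poly_code (poly_litOf hφ (NPC.Poly.add (NPC.Poly.mul (NPC.Poly.const 3)
      (NPC.Poly.div hx (NPC.Poly.const 5))) h5)))
    (NPC.Poly.ite (p := fun t => x t % 5 = 3) (NPC.Poly.decide_eq h5 (NPC.Poly.const 3))
      (NPC.Poly.mul (NPC.Poly.const 6) (NPC.Poly.length hφ)) (upoly_lin hφ 6 2).toPoly)

theorem upoly_X (hφ : Poly φ) : UPoly (fun t => (nf (φ t)).X) :=
  UPoly.add (UPoly.mul (UPoly.const 2) (upoly_lin hφ 3 2))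
    (UPoly.mul (UPoly.const 5) (UPoly.length hφ))

theorem poly_lt (hφ : Poly φ) (ha : Poly a) (hx : Poly x) :
    Poly (fun t => (nf (φ t)).lt (a t) (x t)) :=
  NPC.Poly.ite (p := fun t => a t = 0) (NPC.Poly.decide_eq ha (NPC.Poly.const 0)) hx
    (poly_ocN hφ hx)

theorem poly_val (hφ : Poly φ) (ha : Poly a) (hx : Poly x) :
    Poly (fun t => decide ((nf (φ t)).Val (a t) (x t))) := by
  have h := NPC.Poly.decide_or
    (NPC.Poly.decide_and (NPC.Poly.decide_eq ha (NPC.Poly.const 0))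
      (NPC.Poly.decide_lt hx (NPC.Poly.mul (NPC.Poly.const 2) (upoly_lin hφ 3 2).toPoly)))
    (NPC.Poly.decide_and
      (NPC.Poly.decide_or (NPC.Poly.decide_eq ha (NPC.Poly.const 1))
        (NPC.Poly.decide_eq ha (NPC.Poly.const 2)))
      (NPC.Poly.decide_lt hx (NPC.Poly.mul (NPC.Poly.const 5) (NPC.Poly.length hφ))))
  exact h.congr fun t => decide_eq_decide.2 Iff.rfl

theorem poly_conf (hφ : Poly φ) (ha : Poly a) (hx : Poly x) (hb : Poly b) (hy : Poly y) :
    Poly (fun t => decide ((nf (φ t)).Conf (a t) (x t) (b t) (y t))) := by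
  have c : ∀ n : ℕ, Poly (fun _ : α => n) := fun n => NPC.Poly.const n
  have h := NPC.Poly.decide_or
    (NPC.Poly.decide_eq (poly_lt hφ ha hx) (poly_comp (poly_lt hφ hb hy)))
    (NPC.Poly.decide_or
      (NPC.Poly.decide_and (NPC.Poly.decide_eq ha (c 1))
        (NPC.Poly.decide_and (NPC.Poly.decide_eq hb (c 1))
          (NPC.Poly.decide_and (NPC.Poly.decide_not (NPC.Poly.decide_eq hx hy))
            (NPC.Poly.decide_eq (NPC.Poly.div hx (c 5)) (NPC.Poly.div hy (c 5))))))
      (NPC.Poly.decide_and (NPC.Poly.decide_eq hx hy)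
        (NPC.Poly.decide_or
          (NPC.Poly.decide_and (NPC.Poly.decide_eq ha (c 1)) (NPC.Poly.decide_eq hb (c 2)))
          (NPC.Poly.decide_and (NPC.Poly.decide_eq ha (c 2)) (NPC.Poly.decide_eq hb (c 1))))))
  exact h.congr fun t => decide_eq_decide.2 Iff.rfl

theorem poly_R (hφ : Poly φ) (ha : Poly a) (hx : Poly x) (hb : Poly b) (hy : Poly y) :
    Poly (fun t => decide ((nf (φ t)).R (a t) (x t) (b t) (y t))) := by
  have h := NPC.Poly.decide_and (poly_val hφ ha hx)
    (NPC.Poly.decide_and (poly_val hφ hb hy)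
      (NPC.Poly.decide_and
        (NPC.Poly.decide_not (NPC.Poly.decide_and (NPC.Poly.decide_eq ha hb)
          (NPC.Poly.decide_eq hx hy)))
        (NPC.Poly.decide_not (poly_conf hφ ha hx hb hy))))
  exact h.congr fun t => decide_eq_decide.2 Iff.rfl

theorem poly_adjN (hφ : Poly φ) (hi : Poly i) (hj : Poly j) :
    Poly (fun t => decide (adjN (φ t) (i t) (j t))) := by
  have hX := (upoly_X hφ).toPoly
  have h := poly_R hφ (NPC.Poly.div hi hX) (NPC.Poly.mod hi hX) (NPC.Poly.div hj hX)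
    (NPC.Poly.mod hj hX)
  exact h.congr fun t => decide_eq_decide.2 Iff.rfl

theorem poly_clC (hφ : Poly φ) (hi : Poly i) (hj : Poly j) :
    Poly (fun t => clC (φ t) (i t) (j t)) := by
  have hlen : Poly (fun t => (φ t).length) := NPC.Poly.length hφ
  have h3 : Poly (fun t => 3 * i t) := NPC.Poly.mul (NPC.Poly.const 3) hi
  refine NPC.Poly.ite (p := fun t => i t < (φ t).length) (NPC.Poly.decide_lt hi hlen) ?_
    (NPC.Poly.ite (p := fun t => i t = (φ t).length) (NPC.Poly.decide_eq hi hlen)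
      (NPC.Poly.decide_eq hj (upoly_lin hφ 6 1).toPoly)
      (NPC.Poly.decide_eq hj (upoly_lin hφ 6 3).toPoly))
  exact NPC.Poly.decide_or (NPC.Poly.decide_eq hj (poly_code (poly_litOf hφ h3)))
    (NPC.Poly.decide_or
      (NPC.Poly.decide_eq hj (poly_code (poly_litOf hφ (NPC.Poly.add h3 (NPC.Poly.const 1)))))
      (NPC.Poly.decide_eq hj (poly_code (poly_litOf hφ (NPC.Poly.add h3 (NPC.Poly.const 2))))))

theorem poly_valC (hφ : Poly φ) (ha : Poly a) (hx : Poly x) :
    Poly (fun t => decide ((cf (φ t)).Val (a t) (x t))) := by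
  have h := NPC.Poly.decide_or (NPC.Poly.decide_eq ha (NPC.Poly.const 0))
    (NPC.Poly.decide_eq (poly_clC hφ (NPC.Poly.sub ha (NPC.Poly.const 1)) hx)
      (NPC.Poly.const false))
  exact h.congr fun t => decide_eq_decide.2 Iff.rfl

theorem poly_RC (hφ : Poly φ) (ha : Poly a) (hx : Poly x) (hb : Poly b) (hy : Poly y) :
    Poly (fun t => decide ((cf (φ t)).R (a t) (x t) (b t) (y t))) := by
  have c : ∀ n : ℕ, Poly (fun _ : α => n) := fun n => NPC.Poly.const n
  have ha0 : Poly (fun t => decide (a t = 0)) := NPC.Poly.decide_eq ha (c 0)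
  have hb0 : Poly (fun t => decide (b t = 0)) := NPC.Poly.decide_eq hb (c 0)
  have h := NPC.Poly.decide_and (poly_valC hφ ha hx)
    (NPC.Poly.decide_and (poly_valC hφ hb hy)
      (NPC.Poly.decide_or
        (NPC.Poly.decide_and (NPC.Poly.decide_eq ha hb) (NPC.Poly.decide_eq hy (poly_comp hx)))
        (NPC.Poly.decide_or
          (NPC.Poly.decide_and ha0 (NPC.Poly.decide_and (NPC.Poly.decide_not hb0)
            (NPC.Poly.decide_or (NPC.Poly.decide_eq hx (poly_comp hy))
              (NPC.Poly.decide_bool (poly_clC hφ (NPC.Poly.sub hb (c 1)) hx)))))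
          (NPC.Poly.decide_or
            (NPC.Poly.decide_and hb0 (NPC.Poly.decide_and (NPC.Poly.decide_not ha0)
              (NPC.Poly.decide_or (NPC.Poly.decide_eq hy (poly_comp hx))
                (NPC.Poly.decide_bool (poly_clC hφ (NPC.Poly.sub ha (c 1)) hy)))))
            (NPC.Poly.decide_and (NPC.Poly.decide_not ha0)
              (NPC.Poly.decide_and (NPC.Poly.decide_not hb0)
                (NPC.Poly.decide_not (NPC.Poly.decide_eq ha hb))))))))
  exact h.congr fun t => decide_eq_decide.2 Iff.rfl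

theorem poly_adjC (hφ : Poly φ) (hi : Poly i) (hj : Poly j) :
    Poly (fun t => decide (adjC (φ t) (i t) (j t))) := by
  have hX := (upoly_lin hφ 6 4).toPoly
  have h := poly_RC hφ (NPC.Poly.div hi hX) (NPC.Poly.mod hi hX) (NPC.Poly.div hj hX)
    (NPC.Poly.mod hj hX)
  exact h.congr fun t => decide_eq_decide.2 Iff.rfl

end

theorem poly_redN : Poly redN := by
  have hφ : Poly (fun φ : List Cl => φ) := NPC.Poly.id
  refine poly_lists (UPoly.mul (UPoly.const 3) (upoly_X hφ)) ?_
  exact poly_adjN (NPC.Poly.fst (NPC.Poly.fst NPC.Poly.id)) (NPC.Poly.snd (NPC.Poly.fst NPC.Poly.id))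
    (NPC.Poly.snd NPC.Poly.id)

theorem poly_redC : Poly redC := by
  have hφ : Poly (fun φ : List Cl => φ) := NPC.Poly.id
  refine poly_lists (UPoly.mul (UPoly.add (UPoly.length hφ) (UPoly.const 3)) (upoly_lin hφ 6 4)) ?_
  exact poly_adjC (NPC.Poly.fst (NPC.Poly.fst NPC.Poly.id)) (NPC.Poly.snd (NPC.Poly.fst NPC.Poly.id))
    (NPC.Poly.snd NPC.Poly.id)

end Pool.Agent.helper506_es
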